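import Mathlib

namespace Pool.Agent.Lib.MP_ee7726_lc

open Finset

/-- A sequence of sets of coordinates. -/
abbrev Inst := ℕ → Finset ℕ

/-- Number of negative examples before time `τ` containing `j`. -/
def cnt (Z : Inst) (y : ℕ → Bool) (j τ : ℕ) : ℕ :=
  ((range τ).filter (fun a => y a = false ∧ j ∈ Z a)).card

/-- Coordinates that were seen in fewer than `K` earlier negative examples. -/
def surv (Z : Inst) (y : ℕ → Bool) (K : ℕ) : Inst :=
  fun τ => (Z τ).filter (fun j => cnt Z y j τ < K)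

/-- Keep `Z τ` only if `W τ` is small. -/
def cut (Z W : Inst) (θ : ℕ) : Inst := fun τ => if (W τ).card ≤ θ then Z τ else ∅

/-- The nested populations. -/
def lvl (X : Inst) (y : ℕ → Bool) (K θ : ℕ → ℕ) : ℕ → Inst
  | 0 => X
  | k + 1 => cut (lvl X y K θ k) (surv (lvl X y K θ k) y (K k)) (θ k)

/-- The surviving coordinates at level `k`. -/
def lev (X : Inst) (y : ℕ → Bool) (K θ : ℕ → ℕ) (k : ℕ) : Inst := surv (lvl X y K θ k) y (K k)

/-- Level `k` restricted to the coordinates of an earlier example `a`. -/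
def anch (X : Inst) (y : ℕ → Bool) (K θ : ℕ → ℕ) (k a : ℕ) : Inst :=
  fun τ => if a < τ then cut (lev X y K θ k) (lev X y K θ k) (θ k) τ ∩ X a else ∅

def pos (y : ℕ → Bool) (T : ℕ) (f : ℕ → Bool) : ℕ :=
  ((range T).filter (fun τ => y τ = true ∧ f τ = true)).card

def neg (y : ℕ → Bool) (T : ℕ) (f : ℕ → Bool) : ℕ :=
  ((range T).filter (fun τ => y τ = false ∧ f τ = true)).card

/-- Imbalance of a feature. -/
def imb (y : ℕ → Bool) (T : ℕ) (f : ℕ → Bool) : ℕ := Nat.dist (pos y T f) (neg y T f)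

def hi (Y : Inst) (β : ℕ) : ℕ → Bool := fun τ => decide (β < (Y τ).card)

def lo (Y : Inst) (β j : ℕ) : ℕ → Bool := fun τ => decide ((Y τ).card ≤ β ∧ j ∈ Y τ)

def has (Y : Inst) (j : ℕ) : ℕ → Bool := fun τ => decide (j ∈ Y τ)

/-- Negative examples meeting `S`. -/
def noise (Y : Inst) (y : ℕ → Bool) (S : Finset ℕ) (T : ℕ) : Finset ℕ :=
  (range T).filter (fun τ => y τ = false ∧ (Y τ ∩ S).Nonempty)

/-- `Pi` is a set of positive times, each with a designated coordinate of `S`. -/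
def Desig (y : ℕ → Bool) (S : Finset ℕ) (T : ℕ) (J : ℕ → ℕ) (Pi : Finset ℕ) : Prop :=
  ∀ τ ∈ Pi, τ < T ∧ y τ = true ∧ J τ ∈ S

def piOf (Pi : Finset ℕ) (J : ℕ → ℕ) (Y : Inst) : Finset ℕ := Pi.filter (fun τ => J τ ∈ Y τ)

variable {X Y Z : Inst} {y : ℕ → Bool} {K θ : ℕ → ℕ} {S W Pi : Finset ℕ} {T : ℕ} {J : ℕ → ℕ}

theorem pos_le (y : ℕ → Bool) (T : ℕ) (f : ℕ → Bool) : pos y T f ≤ neg y T f + imb y T f := by
  unfold imb Nat.dist; omega

theorem neg_le (y : ℕ → Bool) (T : ℕ) (f : ℕ → Bool) : neg y T f ≤ pos y T f + imb y T f := by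
  unfold imb Nat.dist; omega

theorem cnt_mono_time (Z : Inst) (y : ℕ → Bool) (j : ℕ) {a b : ℕ} (h : a ≤ b) :
    cnt Z y j a ≤ cnt Z y j b :=
  card_le_card (filter_subset_filter _ (range_mono h))

theorem cnt_mono (h : ∀ τ, Y τ ⊆ Z τ) (y : ℕ → Bool) (j τ : ℕ) : cnt Y y j τ ≤ cnt Z y j τ := by
  refine card_le_card fun a ha => ?_
  simp only [mem_filter] at ha ⊢
  exact ⟨ha.1, ha.2.1, h a ha.2.2⟩

theorem cnt_succ (Z : Inst) (y : ℕ → Bool) (j τ : ℕ) :
    cnt Z y j (τ + 1) = cnt Z y j τ + if y τ = false ∧ j ∈ Z τ then 1 else 0 := by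
  unfold cnt
  rw [range_add_one, filter_insert]
  split_ifs with h
  · rw [card_insert_of_notMem (by simp)]
  · rfl

theorem surv_subset (Z : Inst) (y : ℕ → Bool) (k τ : ℕ) : surv Z y k τ ⊆ Z τ := filter_subset _ _

theorem cut_subset (Z W : Inst) (b τ : ℕ) : cut Z W b τ ⊆ Z τ := by
  unfold cut; split_ifs <;> simp

theorem cnt_surv_le (Z : Inst) (y : ℕ → Bool) (k j T : ℕ) : cnt (surv Z y k) y j T ≤ k := by
  induction T with
  | zero => simp [cnt]
  | succ T ih =>
    rw [cnt_succ]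
    split_ifs with h
    · have h1 : cnt Z y j T < k := (mem_filter.1 h.2).2
      have h2 := cnt_mono (surv_subset Z y k) y j T
      omega
    · omega

theorem lvl_succ_subset (k τ : ℕ) : lvl X y K θ (k + 1) τ ⊆ lvl X y K θ k τ := cut_subset _ _ _ _

theorem lvl_subset (k τ : ℕ) : lvl X y K θ k τ ⊆ X τ := by
  induction k with
  | zero => exact Subset.rfl
  | succ k ih => exact (lvl_succ_subset k τ).trans ih

theorem lev_subset (k τ : ℕ) : lev X y K θ k τ ⊆ X τ :=
  (surv_subset _ _ _ _).trans (lvl_subset k τ)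

theorem lvl_eq_of_nonempty {k τ : ℕ} (h : (lvl X y K θ k τ).Nonempty) : lvl X y K θ k τ = X τ := by
  induction k with
  | zero => rfl
  | succ k ih =>
    have h' := ih (h.mono (lvl_succ_subset k τ))
    simp only [lvl, cut] at h ⊢
    split_ifs at h ⊢ with hc
    · exact h'
    · simp at h

theorem card_lev_le_of_nonempty {k τ : ℕ} (h : (lvl X y K θ (k + 1) τ).Nonempty) :
    (lev X y K θ k τ).card ≤ θ k := by
  simp only [lvl, cut] at h
  split_ifs at h with hc
  · exact hc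
  · simp at h

theorem lvl_succ_eq {k τ : ℕ} (h : (lev X y K θ k τ).card ≤ θ k) :
    lvl X y K θ (k + 1) τ = lvl X y K θ k τ := by
  simp only [lvl, cut]
  exact if_pos h

theorem mem_lev {k τ j : ℕ} :
    j ∈ lev X y K θ k τ ↔ j ∈ lvl X y K θ k τ ∧ cnt (lvl X y K θ k) y j τ < K k := mem_filter

theorem mem_anch {k a τ j : ℕ} :
    j ∈ anch X y K θ k a τ ↔
      a < τ ∧ (lev X y K θ k τ).card ≤ θ k ∧ j ∈ lev X y K θ k τ ∧ j ∈ X a := by
  unfold anch cut
  split_ifs with h1 h2 <;> simp [*]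

theorem anch_subset_lev (k a τ : ℕ) : anch X y K θ k a τ ⊆ lev X y K θ k τ :=
  fun _ h => (mem_anch.1 h).2.2.1

theorem anch_subset (k a τ : ℕ) : anch X y K θ k a τ ⊆ X τ :=
  (anch_subset_lev k a τ).trans (lev_subset k τ)

/-- A coordinate that survives at time `τ` and belongs to an earlier example of the population
survived there too. -/
theorem mem_lev_of_lt {k a τ j : ℕ} (ha : (lvl X y K θ k a).Nonempty) (h : a < τ)
    (hj : j ∈ lev X y K θ k τ) (hja : j ∈ X a) : j ∈ lev X y K θ k a := by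
  rw [mem_lev] at hj ⊢
  refine ⟨by rw [lvl_eq_of_nonempty ha]; exact hja, ?_⟩
  exact lt_of_le_of_lt (cnt_mono_time _ _ _ h.le) hj.2

theorem anch_subset_univ {k a : ℕ} (ha : (lvl X y K θ k a).Nonempty) (τ : ℕ) :
    anch X y K θ k a τ ⊆ lev X y K θ k a := by
  intro j hj
  rw [mem_anch] at hj
  exact mem_lev_of_lt ha hj.1 hj.2.2.1 hj.2.2.2

theorem cnt_anch_le (k a j T : ℕ) : cnt (anch X y K θ k a) y j T ≤ K k :=
  (cnt_mono (anch_subset_lev k a) y j T).trans (cnt_surv_le _ _ _ _ _)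

theorem noise_mono (h : ∀ τ, Y τ ⊆ Z τ) : noise Y y S T ⊆ noise Z y S T := by
  intro τ hτ
  simp only [noise, mem_filter] at hτ ⊢
  exact ⟨hτ.1, hτ.2.1, hτ.2.2.mono (inter_subset_inter_right (h τ))⟩

theorem cnt_le_noise {j τ : ℕ} (hj : j ∈ S) (hτ : τ ≤ T) :
    cnt X y j τ ≤ (noise X y S T).card := by
  refine card_le_card fun a ha => ?_
  simp only [noise, mem_filter, mem_range] at ha ⊢
  exact ⟨by omega, ha.2.1, ⟨j, mem_inter.2 ⟨ha.2.2, hj⟩⟩⟩

theorem Desig.filter (h : Desig y S T J Pi) (p : ℕ → Prop) [DecidablePred p] :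
    Desig y S T J (Pi.filter p) := fun τ hτ => h τ (mem_filter.1 hτ).1

/-- Double counting of incidences between negative examples and coordinates. -/
theorem sum_weight_le (A : Finset ℕ) (hA : ∀ τ ∈ A, τ < T ∧ y τ = false) (c : ℕ → ℕ)
    (hW : ∀ τ, Y τ ⊆ W) :
    ∑ τ ∈ A, ∑ j ∈ Y τ, c j ≤ ∑ j ∈ W, cnt Y y j T * c j := by
  have h1 : ∀ τ ∈ A, ∑ j ∈ Y τ, c j = ∑ j ∈ W, if j ∈ Y τ then c j else 0 := by
    intro τ _
    rw [← sum_filter, filter_mem_eq_inter, inter_eq_right.2 (hW τ)]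
  rw [sum_congr rfl h1, sum_comm]
  refine sum_le_sum fun j _ => ?_
  rw [← sum_filter, sum_const, smul_eq_mul]
  refine Nat.mul_le_mul_right _ (card_le_card fun τ hτ => ?_)
  simp only [mem_filter, mem_range] at hτ ⊢
  exact ⟨(hA τ hτ.1).1, (hA τ hτ.1).2, hτ.2⟩

theorem heavy_count {k s : ℕ} (hW : ∀ τ, Y τ ⊆ W) (hK : ∀ j, cnt Y y j T ≤ k) :
    s * ((range T).filter (fun τ => y τ = false ∧ s ≤ (Y τ).card)).card ≤ W.card * k := by
  set A := (range T).filter (fun τ => y τ = false ∧ s ≤ (Y τ).card) with hA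
  have h1 := sum_weight_le (Y := Y) (y := y) (T := T) A
    (fun τ hτ => ⟨mem_range.1 (mem_filter.1 hτ).1, (mem_filter.1 hτ).2.1⟩) (fun _ => 1) hW
  have h2 : s * A.card ≤ ∑ τ ∈ A, ∑ j ∈ Y τ, 1 := by
    rw [mul_comm, ← smul_eq_mul, ← sum_const]
    refine sum_le_sum fun τ hτ => ?_
    simpa using (mem_filter.1 hτ).2.2
  have h3 : ∑ j ∈ W, cnt Y y j T * 1 ≤ W.card * k := by
    rw [← smul_eq_mul, ← sum_const]
    exact sum_le_sum fun j _ => by simpa using hK j
  omega

theorem neg_hi_le {k β D : ℕ} (hW : ∀ τ, Y τ ⊆ W) (hK : ∀ j, cnt Y y j T ≤ k)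
    (hD : W.card * k ≤ (β + 1) * D) : neg y T (hi Y β) ≤ D := by
  have h := heavy_count (s := β + 1) hW hK
  have e : neg y T (hi Y β) =
      ((range T).filter (fun τ => y τ = false ∧ β + 1 ≤ (Y τ).card)).card := by
    unfold neg hi
    congr 1
    ext τ
    simp only [mem_filter, decide_eq_true_eq, Nat.add_one_le_iff]
  rw [e]
  exact Nat.le_of_mul_le_mul_left (h.trans hD) (Nat.succ_pos β)

theorem neg_has (Y : Inst) (y : ℕ → Bool) (j T : ℕ) : neg y T (has Y j) = cnt Y y j T := by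
  unfold neg has cnt
  congr 1
  ext τ
  simp

/-- Positive times whose designated coordinate lies in a set `V` and in `Y τ`. -/
theorem card_le_sum_pos (hP : Desig y S T J Pi) (A V : Finset ℕ) (hA : A ⊆ Pi)
    (f : ℕ → ℕ → Bool) (h : ∀ τ ∈ A, J τ ∈ V ∧ f (J τ) τ = true) :
    A.card ≤ ∑ j ∈ V, pos y T (f j) := by
  have hmap : Set.MapsTo J (A : Set ℕ) (V : Set ℕ) := fun τ hτ => (h τ hτ).1
  rw [card_eq_sum_card_fiberwise hmap]
  refine sum_le_sum fun j _ => card_le_card fun τ hτ => ?_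
  simp only [mem_filter, mem_range] at hτ ⊢
  have := hP τ (hA hτ.1)
  refine ⟨this.1, this.2.1, ?_⟩
  rw [← hτ.2]
  exact (h τ hτ.1).2

/-- The square root bound. -/
theorem bound0 (hP : Desig y S T J Pi) {n k β D m : ℕ} (hW : ∀ τ, Y τ ⊆ W) (hWn : W ⊆ range n)
    (hK : ∀ j, cnt Y y j T ≤ k) (hD : W.card * k ≤ (β + 1) * D)
    (hm : (noise Y y S T).card ≤ m) :
    (piOf Pi J Y).card ≤
      D + m * β + (imb y T (hi Y β) + ∑ j ∈ range n, imb y T (lo Y β j)) := by
  have h1 : (piOf Pi J Y).card ≤ pos y T (hi Y β) +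
      ((piOf Pi J Y).filter (fun τ => (Y τ).card ≤ β)).card := by
    rw [← card_filter_add_card_filter_not (s := piOf Pi J Y) (fun τ => (Y τ).card ≤ β), add_comm]
    refine Nat.add_le_add_right (card_le_card fun τ hτ => ?_) _
    simp only [piOf, mem_filter, mem_range, hi, decide_eq_true_eq] at hτ ⊢
    have := hP τ hτ.1.1
    exact ⟨this.1, this.2.1, by omega⟩
  have h2 : ((piOf Pi J Y).filter (fun τ => (Y τ).card ≤ β)).card ≤
      ∑ j ∈ W ∩ S, pos y T (lo Y β j) := by
    refine card_le_sum_pos hP _ _ ((filter_subset _ _).trans (filter_subset _ _)) _ fun τ hτ => ?_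
    simp only [mem_filter] at hτ
    refine ⟨mem_inter.2 ⟨hW τ hτ.1.2, (hP τ hτ.1.1).2.2⟩, ?_⟩
    simp [lo, hτ.2, hτ.1.2]
  have h3 : ∑ j ∈ W ∩ S, pos y T (lo Y β j) ≤
      ∑ j ∈ W ∩ S, neg y T (lo Y β j) + ∑ j ∈ range n, imb y T (lo Y β j) := by
    refine le_trans (sum_le_sum fun j _ => pos_le y T _) ?_
    rw [sum_add_distrib]
    exact Nat.add_le_add_left (sum_le_sum_of_subset (inter_subset_left.trans hWn)) _
  have h4 : ∑ j ∈ W ∩ S, neg y T (lo Y β j) ≤ m * β := by
    have e1 : ∀ j ∈ W ∩ S, neg y T (lo Y β j) ≤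
        ∑ τ ∈ noise Y y S T, if (Y τ).card ≤ β ∧ j ∈ Y τ then 1 else 0 := by
      intro j hj
      rw [← card_filter]
      refine card_le_card fun τ hτ => ?_
      simp only [noise, mem_filter, mem_range, lo, decide_eq_true_eq] at hτ ⊢
      exact ⟨⟨hτ.1, hτ.2.1, j, mem_inter.2 ⟨hτ.2.2.2, (mem_inter.1 hj).2⟩⟩, hτ.2.2⟩
    refine (sum_le_sum e1).trans ?_
    rw [sum_comm]
    refine le_trans (sum_le_card_nsmul _ _ β fun τ _ => ?_) ?_
    · rw [← card_filter]
      by_cases hc : (Y τ).card ≤ β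
      · refine le_trans (card_le_card fun j hj => ?_) hc
        exact (mem_filter.1 hj).2.2
      · simp [hc]
    · rw [smul_eq_mul]
      exact Nat.mul_le_mul_right _ hm
  have h5 := pos_le y T (hi Y β)
  have h6 := neg_hi_le hW hK hD
  omega

/-- Positive times whose designated coordinate dies between levels `k` and `k + 1`. -/
def piLev (Pi : Finset ℕ) (J : ℕ → ℕ) (X : Inst) (y : ℕ → Bool) (K θ : ℕ → ℕ) (k : ℕ) : Finset ℕ :=
  Pi.filter (fun τ => J τ ∈ lev X y K θ k τ ∧ (lev X y K θ k τ).card ≤ θ k ∧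
    K (k + 1) ≤ cnt (lvl X y K θ (k + 1)) y (J τ) τ)

/-- Imbalances of the features of the level structure. -/
def errU (X : Inst) (y : ℕ → Bool) (K θ : ℕ → ℕ) (T n L : ℕ) : ℕ :=
  ∑ k ∈ range (L + 1),
    (imb y T (hi (lev X y K θ k) (θ k)) + ∑ j ∈ range n, imb y T (has (lev X y K θ k) j))

theorem level_step (hP : Desig y S T J Pi) (k : ℕ) :
    (piOf Pi J (lev X y K θ k)).card ≤ pos y T (hi (lev X y K θ k) (θ k)) +
      (piLev Pi J X y K θ k).card + (piOf Pi J (lev X y K θ (k + 1))).card := by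
  have hsub : piOf Pi J (lev X y K θ k) ⊆
      ((range T).filter (fun τ => y τ = true ∧ hi (lev X y K θ k) (θ k) τ = true) ∪
        piLev Pi J X y K θ k) ∪ piOf Pi J (lev X y K θ (k + 1)) := by
    intro τ hτ
    simp only [piOf, piLev, mem_union, mem_filter, mem_range, hi, decide_eq_true_eq] at hτ ⊢
    have h0 := hP τ hτ.1
    by_cases h1 : (lev X y K θ k τ).card ≤ θ k
    · by_cases h2 : K (k + 1) ≤ cnt (lvl X y K θ (k + 1)) y (J τ) τ
      · exact Or.inl (Or.inr ⟨hτ.1, hτ.2, h1, h2⟩)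
      · refine Or.inr ⟨hτ.1, mem_lev.2 ⟨?_, by omega⟩⟩
        rw [lvl_succ_eq h1]
        exact (mem_lev.1 hτ.2).1
    · exact Or.inl (Or.inl ⟨h0.1, h0.2.1, by omega⟩)
  refine (card_le_card hsub).trans ((card_union_le _ _).trans ?_)
  exact Nat.add_le_add_right (card_union_le _ _) _

theorem level_bound (hP : Desig y S T J Pi) {n L D : ℕ} (hW : ∀ τ, X τ ⊆ W) (hWn : W ⊆ range n)
    (h0 : ∀ τ ∈ Pi, J τ ∈ X τ → cnt X y (J τ) τ < K 0)
    (hD : ∀ k < L, W.card * K k ≤ (θ k + 1) * D) :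
    (piOf Pi J X).card ≤ L * D + W.card * K L + errU X y K θ T n L +
      ∑ k ∈ range L, (piLev Pi J X y K θ k).card := by
  have e0 : piOf Pi J X = piOf Pi J (lev X y K θ 0) := by
    ext τ
    simp only [piOf, mem_filter, mem_lev, lvl]
    exact ⟨fun h => ⟨h.1, h.2, h0 τ h.1 h.2⟩, fun h => ⟨h.1, h.2.1⟩⟩
  have hWk : ∀ k τ, lev X y K θ k τ ⊆ W := fun k τ => (lev_subset k τ).trans (hW τ)
  have h1 : ∀ l ≤ L, (piOf Pi J X).card ≤ l * D +
      ∑ k ∈ range l, imb y T (hi (lev X y K θ k) (θ k)) +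
      ∑ k ∈ range l, (piLev Pi J X y K θ k).card + (piOf Pi J (lev X y K θ l)).card := by
    intro l hl
    induction l with
    | zero => simp [e0]
    | succ l ih =>
      have a1 := ih (by omega)
      have a2 := level_step (X := X) (K := K) (θ := θ) hP l
      have a3 := pos_le y T (hi (lev X y K θ l) (θ l))
      have a4 := neg_hi_le (hWk l) (fun j => cnt_surv_le _ y (K l) j T) (hD l (by omega))
      rw [sum_range_succ, sum_range_succ, add_mul]
      omega
  have h2 : (piOf Pi J (lev X y K θ L)).card ≤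
      W.card * K L + ∑ j ∈ range n, imb y T (has (lev X y K θ L) j) := by
    refine le_trans (card_le_sum_pos hP _ W (filter_subset _ _) (fun j => has (lev X y K θ L) j)
      fun τ hτ => ?_) ?_
    · have := (mem_filter.1 hτ).2
      exact ⟨hWk L τ this, by simpa [has] using this⟩
    · refine le_trans (sum_le_sum fun j _ => pos_le y T _) ?_
      rw [sum_add_distrib]
      refine Nat.add_le_add ?_ (sum_le_sum_of_subset hWn)
      rw [← smul_eq_mul]
      refine sum_le_card_nsmul _ _ _ fun j _ => ?_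
      rw [neg_has]
      exact cnt_surv_le _ _ _ _ _
  have h3 : ∑ k ∈ range L, imb y T (hi (lev X y K θ k) (θ k)) +
      ∑ j ∈ range n, imb y T (has (lev X y K θ L) j) ≤ errU X y K θ T n L := by
    unfold errU
    rw [sum_range_succ]
    refine Nat.add_le_add (sum_le_sum fun k _ => Nat.le_add_right _ _) (Nat.le_add_left _ _)
  have := h1 L le_rfl
  omega

theorem anchor_bound (hP : Desig y S T J Pi) (k : ℕ) :
    K (k + 1) * (piLev Pi J X y K θ k).card ≤
      ∑ a ∈ noise (lvl X y K θ (k + 1)) y S T,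
        (piOf (piLev Pi J X y K θ k) J (anch X y K θ k a)).card := by
  set P := piLev Pi J X y K θ k with hPdef
  have e : ∀ a, (piOf P J (anch X y K θ k a)).card =
      ∑ τ ∈ P, if J τ ∈ anch X y K θ k a τ then 1 else 0 := fun a => card_filter _ _
  simp only [e]
  rw [sum_comm, mul_comm, ← smul_eq_mul]
  refine card_nsmul_le_sum _ _ _ fun τ hτ => ?_
  rw [← card_filter]
  have hτ' := mem_filter.1 hτ
  have h0 := hP τ hτ'.1
  refine hτ'.2.2.2.trans (card_le_card fun a ha => ?_)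
  simp only [noise, mem_filter, mem_range] at ha ⊢
  refine ⟨⟨by omega, ha.2.1, J τ, mem_inter.2 ⟨ha.2.2, h0.2.2⟩⟩, ?_⟩
  exact mem_anch.2 ⟨ha.1, hτ'.2.2.1, hτ'.2.1, lvl_subset _ _ ha.2.2⟩

theorem nonempty_of_mem_noise {k a : ℕ} (ha : a ∈ noise (lvl X y K θ (k + 1)) y S T) :
    (lvl X y K θ (k + 1) a).Nonempty :=
  (mem_filter.1 ha).2.2.mono inter_subset_left

/-- Imbalances of the anchored features. -/
def errA (X : Inst) (y : ℕ → Bool) (K θ β : ℕ → ℕ) (T n L : ℕ) : ℕ :=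
  ∑ a ∈ range T, ∑ k ∈ range (L + 1),
    (imb y T (hi (anch X y K θ k a) (β k)) +
      ∑ j ∈ range n, imb y T (lo (anch X y K θ k a) (β k) j))

/-- The cube root bound. -/
theorem bound1 (hP : Desig y S T J Pi) {n L v m κ : ℕ} {β : ℕ → ℕ} (hW : ∀ τ, X τ ⊆ W)
    (hWn : W ⊆ range n) (hv : W.card ≤ v ^ 3) (hm : (noise X y S T).card ≤ m) (hm0 : 0 < m)
    (hK0 : m < K 0) (hK : ∀ k < L, K k = 2 * K (k + 1) ∧ κ ≤ K (k + 1))
    (hθ : ∀ k, θ k = v ^ 2 * K k / m) (hβ : ∀ k, β k = v * K k / m)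
    (hbot : W.card * K L ≤ v * m) :
    κ * (piOf Pi J X).card ≤ κ * ((5 * L + 1) * (v * m)) + κ * errU X y K θ T n L +
      errA X y K θ β T n L := by
  have h1 := level_bound (X := X) (K := K) (θ := θ) (L := L) (D := v * m) hP hW hWn
    (fun τ hτ _ => lt_of_le_of_lt ((cnt_le_noise (hP τ hτ).2.2 (hP τ hτ).1.le).trans hm) hK0)
    (fun k _ => by
      have a1 : v ^ 2 * K k < (θ k + 1) * m := by
        rw [hθ k, mul_comm _ m]; exact Nat.lt_mul_div_succ _ hm0
      calc W.card * K k ≤ v ^ 3 * K k := Nat.mul_le_mul_right _ hv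
        _ = v * (v ^ 2 * K k) := by ring
        _ ≤ v * ((θ k + 1) * m) := Nat.mul_le_mul_left _ a1.le
        _ = (θ k + 1) * (v * m) := by ring)
  have h2 : ∀ k ∈ range L, κ * (piLev Pi J X y K θ k).card ≤ κ * (4 * (v * m)) +
      ∑ a ∈ range T, (imb y T (hi (anch X y K θ k a) (β k)) +
        ∑ j ∈ range n, imb y T (lo (anch X y K θ k a) (β k) j)) := by
    intro k hk
    have hk' := hK k (mem_range.1 hk)
    have a1 := anchor_bound (X := X) (K := K) (θ := θ) hP k
    have a2 : ∀ a ∈ noise (lvl X y K θ (k + 1)) y S T,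
        (piOf (piLev Pi J X y K θ k) J (anch X y K θ k a)).card ≤ 2 * (v * K k) +
          (imb y T (hi (anch X y K θ k a) (β k)) +
            ∑ j ∈ range n, imb y T (lo (anch X y K θ k a) (β k) j)) := by
      intro a ha
      have hne := nonempty_of_mem_noise ha
      have b1 := card_lev_le_of_nonempty hne
      have b2 : θ k * m ≤ v ^ 2 * K k := by rw [hθ k]; exact Nat.div_mul_le_self _ _
      have b3 : v * K k < (β k + 1) * m := by
        rw [hβ k, mul_comm _ m]; exact Nat.lt_mul_div_succ _ hm0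
      have b4 : m * β k ≤ v * K k := by rw [hβ k]; exact Nat.mul_div_le _ _
      have b5 := bound0 (Y := anch X y K θ k a) (β := β k) (D := v * K k) (m := m) (n := n)
        (hP.filter (fun τ => J τ ∈ lev X y K θ k τ ∧ (lev X y K θ k τ).card ≤ θ k ∧
          K (k + 1) ≤ cnt (lvl X y K θ (k + 1)) y (J τ) τ))
        (anch_subset_univ (hne.mono (lvl_succ_subset k a)))
        ((lev_subset k a).trans ((hW a).trans hWn)) (fun j => cnt_anch_le k a j T)
        (by
          refine Nat.le_of_mul_le_mul_right ?_ hm0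
          calc (lev X y K θ k a).card * K k * m ≤ θ k * K k * m := by gcongr
            _ = (θ k * m) * K k := by ring
            _ ≤ (v ^ 2 * K k) * K k := by gcongr
            _ = (v * K k) * (v * K k) := by ring
            _ ≤ ((β k + 1) * m) * (v * K k) := by gcongr
            _ = (β k + 1) * (v * K k) * m := by ring)
        ((card_le_card (noise_mono (anch_subset k a))).trans hm)
      unfold piLev
      omega
    have a3 := a1.trans (sum_le_sum a2)
    rw [sum_add_distrib, sum_const, smul_eq_mul] at a3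
    have a4 : (noise (lvl X y K θ (k + 1)) y S T).card ≤ m :=
      (card_le_card (noise_mono (lvl_subset (k + 1)))).trans hm
    have a5 : ∑ a ∈ noise (lvl X y K θ (k + 1)) y S T, (imb y T (hi (anch X y K θ k a) (β k)) +
        ∑ j ∈ range n, imb y T (lo (anch X y K θ k a) (β k) j)) ≤
        ∑ a ∈ range T, (imb y T (hi (anch X y K θ k a) (β k)) +
        ∑ j ∈ range n, imb y T (lo (anch X y K θ k a) (β k) j)) :=
      sum_le_sum_of_subset (filter_subset _ _)
    have a6 : (noise (lvl X y K θ (k + 1)) y S T).card * (2 * (v * K k)) ≤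
        K (k + 1) * (4 * (v * m)) := by
      calc _ ≤ m * (2 * (v * K k)) := by gcongr
        _ = K (k + 1) * (4 * (v * m)) := by rw [hk'.1]; ring
    generalize (piLev Pi J X y K θ k).card = p at *
    generalize 4 * (v * m) = q at *
    rcases le_total p q with hpq | hpq
    · have := Nat.mul_le_mul_left κ hpq
      omega
    · obtain ⟨d, rfl⟩ := Nat.exists_eq_add_of_le hpq
      have := Nat.mul_le_mul_right d hk'.2
      rw [mul_add] at a3 ⊢
      omega
  have h3 := sum_le_sum h2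
  rw [← mul_sum, sum_add_distrib, sum_const, card_range, smul_eq_mul, sum_comm] at h3
  have h4 : ∑ a ∈ range T, ∑ k ∈ range L, (imb y T (hi (anch X y K θ k a) (β k)) +
        ∑ j ∈ range n, imb y T (lo (anch X y K θ k a) (β k) j)) ≤ errA X y K θ β T n L :=
    sum_le_sum fun a _ => sum_le_sum_of_subset (range_mono (Nat.le_succ L))
  have h5 := Nat.mul_le_mul_left κ h1
  have h6 := Nat.mul_le_mul_left κ hbot
  have e : κ * ((5 * L + 1) * (v * m)) = κ * (L * (v * m)) + κ * (v * m) + L * (κ * (4 * (v * m))) := by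
    ring
  simp only [mul_add] at h5
  omega

end Pool.Agent.Lib.MP_ee7726_lc
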