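import Mathlib
import Pool.Agent.Lib.MP_ee7726_lc.Comb

namespace Pool.Agent.Lib.MP_ee7726_lc

open Finset

/-- Examples that meet the anchor `a` in at least `s` surviving coordinates. -/
def popI (X : Inst) (y : ℕ → Bool) (K θ θ' : ℕ → ℕ) (k a i s : ℕ) : Inst :=
  fun σ => if s ≤ (lev (anch X y K θ k a) y K θ' i σ).card then lev X y K θ k σ else ∅

/-- Coordinates that are frequent among those examples. -/
def nbr (X : Inst) (y : ℕ → Bool) (K θ θ' : ℕ → ℕ) (k a i s h : ℕ) : Inst :=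
  fun τ => (X τ).filter (fun j => h ≤ cnt (popI X y K θ θ' k a i s) y j τ)

variable {X Y Z : Inst} {y : ℕ → Bool} {K θ θ' : ℕ → ℕ} {S W Pi : Finset ℕ} {T : ℕ} {J : ℕ → ℕ}

theorem nbr_subset (k a i s h τ : ℕ) : nbr X y K θ θ' k a i s h τ ⊆ X τ := filter_subset _ _

theorem popI_subset (k a i s σ : ℕ) : popI X y K θ θ' k a i s σ ⊆ lev X y K θ k σ := by
  unfold popI; split_ifs <;> simp

theorem sum_cnt_le (Y : Inst) (y : ℕ → Bool) (T : ℕ) (V : Finset ℕ) :
    ∑ j ∈ V, cnt Y y j T ≤ ∑ σ ∈ (range T).filter (fun σ => y σ = false), (Y σ).card := by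
  have e : ∀ j, cnt Y y j T =
      ∑ σ ∈ (range T).filter (fun σ => y σ = false), if j ∈ Y σ then 1 else 0 := by
    intro j
    rw [← card_filter, filter_filter]
    rfl
  simp only [e]
  rw [sum_comm]
  refine sum_le_sum fun σ _ => ?_
  rw [← card_filter]
  exact card_le_card fun j hj => (mem_filter.1 hj).2

theorem nbr_univ {k a i s h n : ℕ} (ha : (lvl X y K θ (k + 1) a).Nonempty) (hs : 1 ≤ s) :
    s * h * ((range n).filter (fun j => h ≤ cnt (popI X y K θ θ' k a i s) y j T)).card ≤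
      θ k ^ 2 * K i := by
  set V := (range n).filter (fun j => h ≤ cnt (popI X y K θ θ' k a i s) y j T) with hV
  set Y := anch X y K θ k a with hY
  set A := (range T).filter (fun σ => y σ = false ∧ s ≤ (lev Y y K θ' i σ).card) with hA
  have h1 : V.card * h ≤ ∑ j ∈ V, cnt (popI X y K θ θ' k a i s) y j T := by
    rw [← smul_eq_mul]
    exact card_nsmul_le_sum _ _ _ fun j hj => (mem_filter.1 hj).2
  have h2 := sum_cnt_le (popI X y K θ θ' k a i s) y T V
  have h3 : ∑ σ ∈ (range T).filter (fun σ => y σ = false), (popI X y K θ θ' k a i s σ).card ≤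
      A.card * θ k := by
    have e : ∀ σ ∈ (range T).filter (fun σ => y σ = false), (popI X y K θ θ' k a i s σ).card ≤
        if s ≤ (lev Y y K θ' i σ).card then θ k else 0 := by
      intro σ _
      unfold popI
      split_ifs with hc
      · obtain ⟨j, hj⟩ : (lev Y y K θ' i σ).Nonempty := card_pos.1 (hs.trans hc)
        exact (mem_anch.1 (lev_subset i σ hj)).2.1
      · simp
    refine (sum_le_sum e).trans ?_
    rw [← sum_filter, filter_filter, sum_const, smul_eq_mul]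
  have h4 : s * A.card ≤ (lev X y K θ k a).card * K i :=
    heavy_count (fun σ => (lev_subset i σ).trans
      (anch_subset_univ (ha.mono (lvl_succ_subset k a)) σ)) (fun j => cnt_surv_le _ _ _ _ _)
  have h5 := card_lev_le_of_nonempty ha
  calc s * h * V.card = s * (V.card * h) := by ring
    _ ≤ s * (A.card * θ k) := Nat.mul_le_mul_left _ (h1.trans (h2.trans h3))
    _ = (s * A.card) * θ k := by ring
    _ ≤ (θ k * K i) * θ k := Nat.mul_le_mul_right _ (h4.trans (Nat.mul_le_mul_right _ h5))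
    _ = θ k ^ 2 * K i := by ring

theorem dyadic {x l : ℕ} (h : x < 2 ^ l) :
    x ≤ ∑ b ∈ range l, if 2 ^ b ≤ x then 2 * 2 ^ b else 0 := by
  rcases Nat.eq_zero_or_pos x with rfl | hx
  · simp
  have h1 : Nat.log 2 x < l := Nat.log_lt_of_lt_pow hx.ne' h
  have h2 : 2 ^ Nat.log 2 x ≤ x := Nat.pow_log_le_self 2 hx.ne'
  have h3 : x < 2 ^ (Nat.log 2 x + 1) := Nat.lt_pow_succ_log_self (by norm_num) x
  refine le_trans ?_ (single_le_sum (f := fun b => if 2 ^ b ≤ x then 2 * 2 ^ b else 0)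
    (fun _ _ => Nat.zero_le _) (mem_range.2 h1))
  simp only [h2, if_true]
  rw [pow_succ] at h3
  omega

/-- Later designated positive times whose coordinate lies in example `σ`. -/
def topSet (P : Finset ℕ) (J : ℕ → ℕ) (L : Inst) (σ : ℕ) : Finset ℕ :=
  P.filter (fun τ => σ < τ ∧ J τ ∈ L σ)

theorem zpart {k i v m : ℕ} (hm : (noise X y S T).card ≤ m) :
    ∑ a ∈ noise (lvl X y K θ (k + 1)) y S T,
      ∑ σ ∈ (noise (lvl (anch X y K θ k a) y K θ' (i + 1)) y S T).filter
        (fun σ => (topSet (piLev Pi J X y K θ k) J (lev X y K θ k) σ).card < v),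
        (piOf (piLev (piLev Pi J X y K θ k) J (anch X y K θ k a) y K θ' i) J
          (anch (anch X y K θ k a) y K θ' i σ)).card ≤ m * v * K k := by
  set P := piLev Pi J X y K θ k with hP
  set N := noise (lvl X y K θ (k + 1)) y S T with hN
  set Zs := (noise X y S T).filter (fun σ => (topSet P J (lev X y K θ k) σ).card < v) with hZ
  have h1 : ∀ a ∈ N, ∑ σ ∈ (noise (lvl (anch X y K θ k a) y K θ' (i + 1)) y S T).filter
        (fun σ => (topSet P J (lev X y K θ k) σ).card < v),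
        (piOf (piLev P J (anch X y K θ k a) y K θ' i) J
          (anch (anch X y K θ k a) y K θ' i σ)).card ≤
      ∑ σ ∈ Zs, ∑ τ ∈ topSet P J (lev X y K θ k) σ, if a < τ ∧ J τ ∈ X a then 1 else 0 := by
    intro a _
    refine le_trans (sum_le_sum_of_subset (t := Zs) (filter_subset_filter _ (noise_mono fun τ =>
      (lvl_subset _ _).trans (anch_subset k a τ)))) (sum_le_sum fun σ _ => ?_)
    rw [← card_filter]
    refine card_le_card fun τ hτ => ?_
    have b1 := mem_filter.1 hτ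
    have b2 := mem_anch.1 b1.2
    have b3 := mem_anch.1 (lev_subset i τ b2.2.2.1)
    refine mem_filter.2 ⟨mem_filter.2 ⟨(mem_filter.1 b1.1).1, b2.1,
      anch_subset_lev k a σ b2.2.2.2⟩, b3.1, b3.2.2.2⟩
  refine (sum_le_sum h1).trans ?_
  rw [sum_comm]
  have h2 : ∀ σ ∈ Zs, ∑ a ∈ N, ∑ τ ∈ topSet P J (lev X y K θ k) σ,
      (if a < τ ∧ J τ ∈ X a then 1 else 0) ≤ v * K k := by
    intro σ hσ
    rw [sum_comm]
    refine le_trans (sum_le_card_nsmul _ _ (K k) fun τ hτ => ?_) ?_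
    · rw [← card_filter]
      have b1 : J τ ∈ lev X y K θ k τ := (mem_filter.1 (mem_filter.1 hτ).1).2.1
      refine le_trans (card_le_card fun a ha => ?_) (mem_lev.1 b1).2.le
      have b2 := mem_filter.1 ha
      have b3 := nonempty_of_mem_noise b2.1
      refine mem_filter.2 ⟨mem_range.2 b2.2.1, (mem_filter.1 b2.1).2.1, ?_⟩
      rw [lvl_eq_of_nonempty (b3.mono (lvl_succ_subset k a))]
      exact b2.2.2
    · rw [smul_eq_mul]
      exact Nat.mul_le_mul_right _ (mem_filter.1 hσ).2.le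
  refine (sum_le_card_nsmul _ _ _ h2).trans ?_
  rw [smul_eq_mul, mul_assoc]
  exact Nat.mul_le_mul_right _ ((card_le_card (filter_subset _ _)).trans hm)

theorem nzpart (hP : Desig y S T J Pi) {i n : ℕ} (hn : ∀ τ, Y τ ⊆ range n) (A : Finset ℕ)
    (hA : A ⊆ noise (lvl Y y K θ' (i + 1)) y S T) :
    ∑ σ ∈ A, (piOf (piLev Pi J Y y K θ' i) J (anch Y y K θ' i σ)).card ≤
      K i * ∑ σ ∈ A, (lev Y y K θ' i σ).card +
        K i * ∑ j ∈ range n, imb y T (has (lev Y y K θ' i) j) := by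
  have h1 : ∀ σ ∈ A, (piOf (piLev Pi J Y y K θ' i) J (anch Y y K θ' i σ)).card ≤
      K i * (lev Y y K θ' i σ).card +
        ∑ j ∈ lev Y y K θ' i σ, imb y T (has (lev Y y K θ' i) j) := by
    intro σ hσ
    have b1 := (nonempty_of_mem_noise (hA hσ)).mono (lvl_succ_subset i σ)
    refine le_trans (card_le_sum_pos hP _ (lev Y y K θ' i σ)
      ((filter_subset _ _).trans (filter_subset _ _)) (fun j => has (lev Y y K θ' i) j)
      fun τ hτ => ?_) ?_
    · have b2 := (mem_filter.1 hτ).2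
      exact ⟨anch_subset_univ b1 τ b2, by simpa [has] using anch_subset_lev i σ τ b2⟩
    · refine le_trans (sum_le_sum fun j _ => pos_le y T _) ?_
      rw [sum_add_distrib, mul_comm, ← smul_eq_mul]
      refine Nat.add_le_add_right (sum_le_card_nsmul _ _ _ fun j _ => ?_) _
      rw [neg_has]
      exact cnt_surv_le _ _ _ _ _
  refine (sum_le_sum h1).trans ?_
  rw [sum_add_distrib, ← mul_sum]
  refine Nat.add_le_add_left ?_ _
  refine le_trans (sum_weight_le (y := y) (T := T) (W := range n) A (fun σ hσ => ?_) _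
    (fun τ => (lev_subset i τ).trans (hn τ))) ?_
  · have := mem_filter.1 (hA hσ)
    exact ⟨mem_range.1 this.1, this.2.1⟩
  · rw [mul_sum]
    exact sum_le_sum fun j _ => Nat.mul_le_mul_right _ (cnt_surv_le _ _ _ _ _)

theorem poppart {k a i s v lc : ℕ} (hlc : K k ≤ 2 ^ lc) (A : Finset ℕ)
    (hA : ∀ σ ∈ A, y σ = false ∧
      v ≤ (topSet (piLev Pi J X y K θ k) J (lev X y K θ k) σ).card) :
    v * (A.filter (fun σ => s ≤ (lev (anch X y K θ k a) y K θ' i σ).card)).card ≤
      ∑ c ∈ range lc, if 2 ^ c ≤ K k then 2 * 2 ^ c *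
        (piOf (piLev Pi J X y K θ k) J (nbr X y K θ θ' k a i s (2 ^ c))).card else 0 := by
  set P := piLev Pi J X y K θ k with hP
  set B := A.filter (fun σ => s ≤ (lev (anch X y K θ k a) y K θ' i σ).card) with hB
  have h1 : v * B.card ≤ ∑ σ ∈ B, ∑ τ ∈ P, if σ < τ ∧ J τ ∈ lev X y K θ k σ then 1 else 0 := by
    rw [mul_comm, ← smul_eq_mul]
    refine card_nsmul_le_sum _ _ _ fun σ hσ => ?_
    rw [← card_filter]
    exact (hA σ (mem_filter.1 hσ).1).2
  rw [sum_comm] at h1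
  have h2 : ∀ τ ∈ P, (∑ σ ∈ B, if σ < τ ∧ J τ ∈ lev X y K θ k σ then 1 else 0) ≤
      ∑ c ∈ range lc, if 2 ^ c ≤ K k then
        (2 * 2 ^ c * if J τ ∈ nbr X y K θ θ' k a i s (2 ^ c) τ then 1 else 0) else 0 := by
    intro τ hτ
    have b1 : J τ ∈ lev X y K θ k τ := (mem_filter.1 hτ).2.1
    have b2 : cnt (popI X y K θ θ' k a i s) y (J τ) τ < K k :=
      lt_of_le_of_lt (cnt_mono (fun σ => (popI_subset k a i s σ).trans (surv_subset _ _ _ _))
        y _ _) (mem_lev.1 b1).2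
    have b3 : (∑ σ ∈ B, if σ < τ ∧ J τ ∈ lev X y K θ k σ then 1 else 0) ≤
        cnt (popI X y K θ θ' k a i s) y (J τ) τ := by
      rw [← card_filter]
      refine card_le_card fun σ hσ => ?_
      have c1 := mem_filter.1 hσ
      have c2 := mem_filter.1 c1.1
      refine mem_filter.2 ⟨mem_range.2 c1.2.1, (hA σ c2.1).1, ?_⟩
      unfold popI
      rw [if_pos c2.2]
      exact c1.2.2
    refine b3.trans ((dyadic (b2.trans_le hlc)).trans (sum_le_sum fun c _ => ?_))
    split_ifs with c1 c2 c3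
    · omega
    · exact absurd (mem_filter.2 ⟨lev_subset k τ b1, c1⟩) c3
    · omega
    all_goals exact Nat.zero_le _
  refine h1.trans ((sum_le_sum h2).trans (le_of_eq ?_))
  rw [sum_comm]
  refine sum_congr rfl fun c _ => ?_
  split_ifs
  · rw [← mul_sum, ← card_filter]; rfl
  · simp

theorem cancel_aux {a x M E c : ℕ} (h : a * x ≤ a * M + E) (hc : c ≤ a) : c * x ≤ c * M + E := by
  rcases le_total x M with hx | hx
  · have := Nat.mul_le_mul_left c hx
    omega
  · obtain ⟨d, rfl⟩ := Nat.exists_eq_add_of_le hx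
    have := Nat.mul_le_mul_right d hc
    rw [mul_add] at h ⊢
    omega

/-- Thresholds proportional to the counters. -/
def thr (K : ℕ → ℕ) (m g : ℕ) : ℕ → ℕ := fun k => g * K k / m

/-- All imbalances used by the cube root bound. -/
def errB (Y : Inst) (y : ℕ → Bool) (K : ℕ → ℕ) (m κ T n L : ℕ) : ℕ :=
  ∑ v ∈ range (n + 1), (κ * errU Y y K (thr K m (v ^ 2)) T n L +
    errA Y y K (thr K m (v ^ 2)) (thr K m v) T n L)

/-- The counters halve from level to level down to `κ`. -/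
structure Grid (K : ℕ → ℕ) (n L m κ : ℕ) : Prop where
  hm : m = n * κ
  hpos : 0 < m
  h0 : m < K 0
  hstep : ∀ k < L, K k = 2 * K (k + 1) ∧ κ ≤ K (k + 1)
  hlast : K L = κ

theorem bound1' (hP : Desig y S T J Pi) {n L v m κ : ℕ} (hG : Grid K n L m κ)
    (hW : ∀ τ, X τ ⊆ W) (hWn : W ⊆ range n) (hv : W.card ≤ v ^ 3) (hvn : v ≤ n)
    (hm : (noise X y S T).card ≤ m) :
    κ * (piOf Pi J X).card ≤ κ * ((5 * L + 1) * (v * m)) + errB X y K m κ T n L := by
  have h1 := bound1 (K := K) (θ := thr K m (v ^ 2)) (β := thr K m v) (L := L) (κ := κ) hP hW hWn hv hm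
    hG.hpos hG.h0 hG.hstep (fun _ => rfl) (fun _ => rfl) (by
      rw [hG.hlast, hG.hm]
      rcases Nat.eq_zero_or_pos v with rfl | h
      · simp at hv; simp [hv]
      · have := card_le_card hWn
        rw [card_range] at this
        calc W.card * κ ≤ n * κ := by gcongr
          _ ≤ v * (n * κ) := Nat.le_mul_of_pos_left _ h)
  have h2 : κ * errU X y K (thr K m (v ^ 2)) T n L +
      errA X y K (thr K m (v ^ 2)) (thr K m v) T n L ≤ errB X y K m κ T n L :=
    single_le_sum (f := fun v => κ * errU X y K (thr K m (v ^ 2)) T n L +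
      errA X y K (thr K m (v ^ 2)) (thr K m v) T n L) (fun _ _ => Nat.zero_le _)
      (mem_range.2 (Nat.lt_succ_of_le hvn))
  omega

/-- The weight of the valuable noise examples near an anchor. -/
theorem weight_bound (hP : Desig y S T J Pi) {n L m κ k a i r c0 lb lc : ℕ} (hG : Grid K n L m κ)
    (hn : ∀ τ, X τ ⊆ range n) (hT : ∀ τ, T ≤ τ → X τ = ∅) (hm : (noise X y S T).card ≤ m)
    (ha : (lvl X y K θ (k + 1) a).Nonempty) (hlb : n < 2 ^ lb) (hlc : K k ≤ 2 ^ lc)
    (hc0 : 8 * (5 * L + 1) * lb * lc ≤ c0) (hc0' : 0 < c0)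
    (hv : ∀ b c, 2 ^ b ≤ θ' i → 2 ^ c ≤ K k → ∃ v ≤ n,
      (∀ w ≤ n, 2 ^ b * 2 ^ c * w ≤ θ k ^ 2 * K i → w ≤ v ^ 3) ∧
      2 ^ b * 2 ^ c * v * c0 * m ≤ 2 * (r ^ 2 * K i * K k))
    (A : Finset ℕ) (hA : ∀ σ ∈ A, y σ = false ∧
      r * K i ≤ (topSet (piLev Pi J X y K θ k) J (lev X y K θ k) σ).card ∧
      (lev (anch X y K θ k a) y K θ' i σ).card ≤ θ' i) :
    κ * (r * K i) * ∑ σ ∈ A, (lev (anch X y K θ k a) y K θ' i σ).card ≤
      κ * (r ^ 2 * K i * K k) + 4 * n * K k * ∑ b ∈ range lb, ∑ c ∈ range lc,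
        errB (nbr X y K θ θ' k a i (2 ^ b) (2 ^ c)) y K m κ T n L := by
  set P := piLev Pi J X y K θ k with hPdef
  have hPd : Desig y S T J P := hP.filter _
  set w : ℕ → ℕ := fun σ => (lev (anch X y K θ k a) y K θ' i σ).card with hw
  have hwn : ∀ σ, w σ ≤ n := fun σ => by
    have := card_le_card ((lev_subset (y := y) (K := K) (θ := θ') i σ).trans
      ((anch_subset (y := y) (K := K) (θ := θ) k a σ).trans (hn σ)))
    simpa using this
  have h1 : ∑ σ ∈ A, w σ ≤ ∑ b ∈ range lb, if 2 ^ b ≤ θ' i ∧ 2 ^ b ≤ n then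
      2 * 2 ^ b * (A.filter (fun σ => 2 ^ b ≤ w σ)).card else 0 := by
    refine (sum_le_sum fun σ _ => dyadic ((hwn σ).trans_lt hlb)).trans ?_
    rw [sum_comm]
    refine sum_le_sum fun b _ => ?_
    rw [← sum_filter, sum_const, smul_eq_mul]
    split_ifs with hc
    · rw [mul_comm]
    · have : A.filter (fun σ => 2 ^ b ≤ w σ) = ∅ := by
        refine filter_eq_empty_iff.2 fun σ hσ h => hc ⟨h.trans (hA σ hσ).2.2, h.trans (hwn σ)⟩
      simp [this]
  have h2 : ∀ b ∈ range lb, c0 * (κ * (r * K i) * if 2 ^ b ≤ θ' i ∧ 2 ^ b ≤ n then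
      2 * 2 ^ b * (A.filter (fun σ => 2 ^ b ≤ w σ)).card else 0) ≤
      lc * (8 * (5 * L + 1) * (κ * (r ^ 2 * K i * K k))) + c0 * (4 * n * K k * ∑ c ∈ range lc,
        errB (nbr X y K θ θ' k a i (2 ^ b) (2 ^ c)) y K m κ T n L) := by
    intro b _
    split_ifs with hb
    swap
    · simp
    have b1 := poppart (θ' := θ') (a := a) (i := i) (s := 2 ^ b) hlc A
      (fun σ hσ => ⟨(hA σ hσ).1, (hA σ hσ).2.1⟩)
    have b2 : ∀ c ∈ range lc, c0 * (κ * (2 * 2 ^ b) * if 2 ^ c ≤ K k then 2 * 2 ^ c *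
        (piOf P J (nbr X y K θ θ' k a i (2 ^ b) (2 ^ c))).card else 0) ≤
        8 * (5 * L + 1) * (κ * (r ^ 2 * K i * K k)) + c0 * (4 * n * K k *
          errB (nbr X y K θ θ' k a i (2 ^ b) (2 ^ c)) y K m κ T n L) := by
      intro c _
      split_ifs with hc
      swap
      · simp
      obtain ⟨v, hvn, hv1, hv2⟩ := hv b c hb.1 hc
      have c1 := nbr_univ (θ' := θ') (T := T) (i := i) (s := 2 ^ b) (h := 2 ^ c) (n := n) ha
        Nat.one_le_two_pow
      have c2 := bound1' (X := nbr X y K θ θ' k a i (2 ^ b) (2 ^ c)) (v := v)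
        (W := (range n).filter (fun j => 2 ^ c ≤ cnt (popI X y K θ θ' k a i (2 ^ b)) y j T))
        hPd hG (fun τ j hj => by
          have d1 := mem_filter.1 hj
          refine mem_filter.2 ⟨hn τ d1.1, d1.2.trans (cnt_mono_time _ _ _ ?_)⟩
          by_contra hc'
          rw [hT τ (by omega)] at d1
          simp at d1) (filter_subset _ _)
        (hv1 _ (by simpa using card_filter_le (range n) _) c1) hvn
        ((card_le_card (noise_mono (nbr_subset k a i _ _))).trans hm)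
      generalize (piOf P J (nbr X y K θ θ' k a i (2 ^ b) (2 ^ c))).card = p at *
      generalize errB (nbr X y K θ θ' k a i (2 ^ b) (2 ^ c)) y K m κ T n L = e at *
      calc c0 * (κ * (2 * 2 ^ b) * (2 * 2 ^ c * p)) = 4 * c0 * (2 ^ b * 2 ^ c) * (κ * p) := by ring
        _ ≤ 4 * c0 * (2 ^ b * 2 ^ c) * (κ * ((5 * L + 1) * (v * m)) + e) := by gcongr
        _ = 4 * (5 * L + 1) * κ * (2 ^ b * 2 ^ c * v * c0 * m) + c0 * (4 * 2 ^ b * 2 ^ c * e) := by
          ring
        _ ≤ 4 * (5 * L + 1) * κ * (2 * (r ^ 2 * K i * K k)) + c0 * (4 * n * K k * e) := by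
          gcongr
          exact hb.2
        _ = _ := by ring
    have b3 := sum_le_sum b2
    rw [← mul_sum, ← mul_sum, sum_add_distrib, sum_const, card_range, smul_eq_mul, ← mul_sum,
      ← mul_sum] at b3
    refine le_trans ?_ b3
    calc _ = c0 * (κ * (2 * 2 ^ b) * (r * K i * (A.filter (fun σ => 2 ^ b ≤ w σ)).card)) := by ring
      _ ≤ _ := by gcongr
  have h3 := sum_le_sum h2
  rw [← mul_sum, ← mul_sum, sum_add_distrib, sum_const, card_range, smul_eq_mul, ← mul_sum,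
    ← mul_sum] at h3
  refine Nat.le_of_mul_le_mul_left ?_ hc0'
  calc c0 * (κ * (r * K i) * ∑ σ ∈ A, w σ) ≤ _ := by gcongr
    _ ≤ _ := h3
    _ = 8 * (5 * L + 1) * lb * lc * (κ * (r ^ 2 * K i * K k)) + c0 * (4 * n * K k *
        ∑ b ∈ range lb, ∑ c ∈ range lc,
          errB (nbr X y K θ θ' k a i (2 ^ b) (2 ^ c)) y K m κ T n L) := by ring
    _ ≤ c0 * (κ * (r ^ 2 * K i * K k)) + c0 * (4 * n * K k *
        ∑ b ∈ range lb, ∑ c ∈ range lc,
          errB (nbr X y K θ θ' k a i (2 ^ b) (2 ^ c)) y K m κ T n L) := by gcongr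
    _ = _ := by ring

end Pool.Agent.Lib.MP_ee7726_lc
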