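import Mathlib
import Pool.Agent.Lib.MP_ee7726_lc.Nbr

namespace Pool.Agent.Lib.MP_ee7726_lc

open Finset

variable {X Y Z : Inst} {y : ℕ → Bool} {K : ℕ → ℕ} {S W Pi : Finset ℕ} {T : ℕ} {J : ℕ → ℕ}

theorem Grid.kpos {n L m κ : ℕ} (hG : Grid K n L m κ) : 0 < κ :=
  Nat.pos_of_mul_pos_left (hG.hm ▸ hG.hpos)

theorem Grid.npos {n L m κ : ℕ} (hG : Grid K n L m κ) : 0 < n :=
  Nat.pos_of_mul_pos_right (hG.hm ▸ hG.hpos)

theorem thr_mul_le (K : ℕ → ℕ) (m g k : ℕ) : thr K m g k * m ≤ g * K k := Nat.div_mul_le_self _ _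

theorem lt_thr_succ (K : ℕ → ℕ) {m : ℕ} (hm : 0 < m) (g k : ℕ) :
    g * K k < (thr K m g k + 1) * m := by
  rw [mul_comm _ m]; exact Nat.lt_mul_div_succ _ hm

theorem levelC (hP : Desig y S T J Pi) {n L m κ k r g0 v : ℕ} (hG : Grid K n L m κ)
    (hn : ∀ τ, X τ ⊆ range n) (hm : (noise X y S T).card ≤ m) (hk : k < L) (hvn : v ≤ n)
    (hv1 : ∀ w ≤ n, w ≤ thr K m g0 k → w ≤ v ^ 3) (hv2 : v * m ≤ 2 * (r * K k)) :
    κ ^ 2 * (piLev Pi J X y K (thr K m g0) k).card ≤ 4 * (5 * L + 1) * (κ ^ 2 * m * r) +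
      ∑ a ∈ range T, errB (anch X y K (thr K m g0) k a) y K m κ T n L := by
  set θ := thr K m g0 with hθ
  set P := piLev Pi J X y K θ k with hPdef
  have hPd : Desig y S T J P := hP.filter _
  have hk' := hG.hstep k hk
  have h1 := anchor_bound (X := X) (K := K) (θ := θ) hP k
  have h2 : ∀ a ∈ noise (lvl X y K θ (k + 1)) y S T, κ * (piOf P J (anch X y K θ k a)).card ≤
      κ * ((5 * L + 1) * (2 * (r * K k))) + errB (anch X y K θ k a) y K m κ T n L := by
    intro a ha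
    have hne := nonempty_of_mem_noise ha
    have hsub : lev X y K θ k a ⊆ range n := (lev_subset k a).trans (hn a)
    have b1 := bound1' (X := anch X y K θ k a) (v := v) hPd hG
      (anch_subset_univ (hne.mono (lvl_succ_subset k a))) hsub
      (hv1 _ (by simpa using card_le_card hsub) (card_lev_le_of_nonempty hne)) hvn
      ((card_le_card (noise_mono (anch_subset k a))).trans hm)
    refine b1.trans ?_
    gcongr
  have h3 := sum_le_sum h2
  rw [← mul_sum, sum_add_distrib, sum_const, smul_eq_mul] at h3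
  have h4 : (noise (lvl X y K θ (k + 1)) y S T).card ≤ m :=
    (card_le_card (noise_mono (lvl_subset (k + 1)))).trans hm
  have h5 : ∑ a ∈ noise (lvl X y K θ (k + 1)) y S T, errB (anch X y K θ k a) y K m κ T n L ≤
      ∑ a ∈ range T, errB (anch X y K θ k a) y K m κ T n L :=
    sum_le_sum_of_subset (filter_subset _ _)
  have h6 : K (k + 1) * (κ * P.card) ≤ K (k + 1) * (4 * (5 * L + 1) * (κ * m * r)) +
      ∑ a ∈ range T, errB (anch X y K θ k a) y K m κ T n L := by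
    calc K (k + 1) * (κ * P.card) = κ * (K (k + 1) * P.card) := by ring
      _ ≤ _ := Nat.mul_le_mul_left _ h1
      _ ≤ _ := h3
      _ ≤ m * (κ * ((5 * L + 1) * (2 * (r * K k)))) +
          ∑ a ∈ range T, errB (anch X y K θ k a) y K m κ T n L := by gcongr
      _ = _ := by rw [hk'.1]; ring
  have h7 := cancel_aux h6 hk'.2
  calc κ ^ 2 * P.card = κ * (κ * P.card) := by ring
    _ ≤ _ := h7
    _ = _ := by ring

theorem levelB (hP : Desig y S T J Pi) {n L m κ k r g0 g1 c0 lb lc : ℕ} (hG : Grid K n L m κ)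
    (hn : ∀ τ, X τ ⊆ range n) (hT : ∀ τ, T ≤ τ → X τ = ∅) (hm : (noise X y S T).card ≤ m)
    (hk : k < L) (hlb : n < 2 ^ lb) (hlc : K k ≤ 2 ^ lc)
    (hc0 : 8 * (5 * L + 1) * lb * lc ≤ c0) (hc0' : 0 < c0) (hr : 1 ≤ r) (hg01 : g0 ≤ g1 * r)
    (hg0n : g0 ≤ n * r)
    (hv : ∀ i b c, 2 ^ b ≤ thr K m g1 i → 2 ^ c ≤ K k → ∃ v ≤ n,
      (∀ w ≤ n, 2 ^ b * 2 ^ c * w ≤ thr K m g0 k ^ 2 * K i → w ≤ v ^ 3) ∧
      2 ^ b * 2 ^ c * v * c0 * m ≤ 2 * (r ^ 2 * K i * K k)) :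
    κ ^ 2 * (piLev Pi J X y K (thr K m g0) k).card ≤ 2 * (5 * L + 1) * (κ ^ 2 * m * r) +
      (3 * ∑ a ∈ range T, κ * errU (anch X y K (thr K m g0) k a) y K (thr K m g1) T n L +
      8 * n * ∑ a ∈ range T, ∑ i ∈ range L, ∑ b ∈ range lb, ∑ c ∈ range lc,
        errB (nbr X y K (thr K m g0) (thr K m g1) k a i (2 ^ b) (2 ^ c)) y K m κ T n L) := by
  set θ := thr K m g0 with hθ
  set θ' := thr K m g1 with hθ'
  set P := piLev Pi J X y K θ k with hPdef
  set N := noise (lvl X y K θ (k + 1)) y S T with hN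
  set E : ℕ → ℕ → ℕ := fun a i => ∑ b ∈ range lb, ∑ c ∈ range lc,
    errB (nbr X y K θ θ' k a i (2 ^ b) (2 ^ c)) y K m κ T n L with hE
  set eH : ℕ → ℕ → ℕ := fun a i =>
    ∑ j ∈ range n, imb y T (has (lev (anch X y K θ k a) y K θ' i) j) with heH
  have hPd : Desig y S T J P := hP.filter _
  have hk' := hG.hstep k hk
  have hκ := hG.kpos
  have hNm : N.card ≤ m := (card_le_card (noise_mono (lvl_subset (k + 1)))).trans hm
  have hNT : N ⊆ range T := filter_subset _ _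
  have h1 := anchor_bound (X := X) (K := K) (θ := θ) hP k
  have h2 : ∀ a ∈ N, (piOf P J (anch X y K θ k a)).card ≤ (L + 1) * (r * K k) +
      errU (anch X y K θ k a) y K θ' T n L +
      ∑ i ∈ range L, (piLev P J (anch X y K θ k a) y K θ' i).card := by
    intro a ha
    have hne := nonempty_of_mem_noise ha
    have b0 := card_lev_le_of_nonempty hne
    have b1 : θ k * m ≤ g0 * K k := thr_mul_le K m g0 k
    have b2 := level_bound (X := anch X y K θ k a) (K := K) (θ := θ') (L := L) (D := r * K k) hPd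
      (anch_subset_univ (hne.mono (lvl_succ_subset k a))) ((lev_subset k a).trans (hn a))
      (fun τ hτ _ => lt_of_le_of_lt ((cnt_le_noise (hPd τ hτ).2.2 (hPd τ hτ).1.le).trans
        ((card_le_card (noise_mono (anch_subset k a))).trans hm)) hG.h0)
      (fun i _ => by
        have c1 : g1 * K i < (θ' i + 1) * m := lt_thr_succ K hG.hpos g1 i
        refine Nat.le_of_mul_le_mul_right ?_ hG.hpos
        calc (lev X y K θ k a).card * K i * m ≤ θ k * K i * m := by gcongr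
          _ = (θ k * m) * K i := by ring
          _ ≤ (g0 * K k) * K i := by gcongr
          _ ≤ (g1 * r * K k) * K i := by gcongr
          _ = (g1 * K i) * (r * K k) := by ring
          _ ≤ ((θ' i + 1) * m) * (r * K k) := by gcongr
          _ = (θ' i + 1) * (r * K k) * m := by ring)
    have b3 : (lev X y K θ k a).card * K L ≤ r * K k := by
      refine Nat.le_of_mul_le_mul_left ?_ hG.npos
      calc n * ((lev X y K θ k a).card * K L) ≤ n * (θ k * K L) := by gcongr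
        _ = θ k * m := by rw [hG.hlast, hG.hm]; ring
        _ ≤ g0 * K k := b1
        _ ≤ n * r * K k := by gcongr
        _ = n * (r * K k) := by ring
    rw [add_mul]
    omega
  have h3 : ∀ i ∈ range L, κ * (κ * ∑ a ∈ N, (piLev P J (anch X y K θ k a) y K θ' i).card) ≤
      κ * (4 * (κ * m * r * K k) + 2 * κ * ∑ a ∈ N, eH a i) + 4 * n * K k * ∑ a ∈ N, E a i := by
    intro i hi
    have hi' := hG.hstep i (mem_range.1 hi)
    have b1 : ∀ a ∈ N, κ * r * (K (i + 1) * (piLev P J (anch X y K θ k a) y K θ' i).card) ≤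
        κ * r * ∑ σ ∈ (noise (lvl (anch X y K θ k a) y K θ' (i + 1)) y S T).filter
          (fun σ => (topSet P J (lev X y K θ k) σ).card < r * K i),
          (piOf (piLev P J (anch X y K θ k a) y K θ' i) J
            (anch (anch X y K θ k a) y K θ' i σ)).card +
        (κ * (r ^ 2 * K i * K k) + 4 * n * K k * E a i + κ * r * K i * eH a i) := by
      intro a ha
      have hne := nonempty_of_mem_noise ha
      have c1 := anchor_bound (X := anch X y K θ k a) (K := K) (θ := θ') hPd i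
      rw [← sum_filter_add_sum_filter_not _
        (fun σ => (topSet P J (lev X y K θ k) σ).card < r * K i)] at c1
      have c2 := nzpart (Y := anch X y K θ k a) (K := K) (θ' := θ') (i := i) hPd
        (fun τ => (anch_subset k a τ).trans (hn τ)) _ (filter_subset
          (fun σ => ¬ (topSet P J (lev X y K θ k) σ).card < r * K i) _)
      have c3 := weight_bound (θ := θ) (θ' := θ') (i := i) (r := r) hP hG hn hT hm hne hlb hlc hc0
        hc0' (hv i) ((noise (lvl (anch X y K θ k a) y K θ' (i + 1)) y S T).filter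
          (fun σ => ¬ (topSet P J (lev X y K θ k) σ).card < r * K i)) (fun σ hσ => by
            have d1 := mem_filter.1 hσ
            exact ⟨(mem_filter.1 d1.1).2.1, not_lt.1 d1.2,
              card_lev_le_of_nonempty (nonempty_of_mem_noise d1.1)⟩)
      refine (Nat.mul_le_mul_left _ (c1.trans (Nat.add_le_add_left c2 _))).trans ?_
      rw [mul_add, mul_add]
      refine Nat.add_le_add_left (Nat.add_le_add (le_trans (le_of_eq ?_) c3) (le_of_eq ?_)) _
      · ring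
      · simp only [heH]; ring
    have b2 := sum_le_sum b1
    rw [sum_add_distrib, sum_add_distrib, sum_add_distrib, sum_const, smul_eq_mul, ← mul_sum,
      ← mul_sum, ← mul_sum, ← mul_sum, ← mul_sum] at b2
    have b3 := zpart (Pi := Pi) (J := J) (K := K) (θ := θ) (θ' := θ') (k := k) (i := i)
      (v := r * K i) hm
    refine cancel_aux (a := r * K (i + 1)) ?_ (hi'.2.trans (Nat.le_mul_of_pos_left _ hr))
    calc r * K (i + 1) * (κ * ∑ a ∈ N, (piLev P J (anch X y K θ k a) y K θ' i).card)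
        = κ * r * (K (i + 1) * ∑ a ∈ N, (piLev P J (anch X y K θ k a) y K θ' i).card) := by ring
      _ ≤ _ := b2
      _ ≤ κ * r * (m * (r * K i) * K k) + (m * (κ * (r ^ 2 * K i * K k)) +
          4 * n * K k * ∑ a ∈ N, E a i + κ * r * K i * ∑ a ∈ N, eH a i) := by gcongr
      _ = _ := by rw [hi'.1]; ring
  have h4 := sum_le_sum h3
  rw [← mul_sum, ← mul_sum, sum_add_distrib, ← mul_sum, ← mul_sum, sum_add_distrib, sum_const,
    card_range, smul_eq_mul, ← mul_sum, sum_comm (s := range L), sum_comm (s := range L),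
    sum_comm (s := range L)] at h4
  have h5 : ∑ a ∈ N, ∑ i ∈ range L, eH a i ≤ ∑ a ∈ N, errU (anch X y K θ k a) y K θ' T n L := by
    refine sum_le_sum fun a _ => ?_
    refine le_trans ?_ (sum_le_sum_of_subset (range_mono (Nat.le_succ L)))
    exact sum_le_sum fun i _ => Nat.le_add_left _ _
  have h6 := h1.trans (sum_le_sum h2)
  rw [sum_add_distrib, sum_add_distrib, sum_const, smul_eq_mul] at h6
  have h7 : ∑ a ∈ N, errU (anch X y K θ k a) y K θ' T n L ≤
      ∑ a ∈ range T, errU (anch X y K θ k a) y K θ' T n L := sum_le_sum_of_subset hNT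
  have h8 : ∑ a ∈ N, ∑ i ∈ range L, E a i ≤ ∑ a ∈ range T, ∑ i ∈ range L, E a i :=
    sum_le_sum_of_subset hNT
  rw [← mul_sum]
  generalize ∑ a ∈ range T, errU (anch X y K θ k a) y K θ' T n L = U at *
  generalize ∑ a ∈ N, errU (anch X y K θ k a) y K θ' T n L = U' at *
  have h9 : K (k + 1) * (κ ^ 2 * P.card) ≤ K (k + 1) * (2 * (5 * L + 1) * (κ ^ 2 * m * r) +
      8 * n * ∑ a ∈ range T, ∑ i ∈ range L, E a i) + κ * (3 * (κ * U)) := by
    calc K (k + 1) * (κ ^ 2 * P.card) = κ * (κ * (K (k + 1) * P.card)) := by ring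
      _ ≤ κ * (κ * (N.card * ((L + 1) * (r * K k)) + U' +
          ∑ a ∈ N, ∑ i ∈ range L, (piLev P J (anch X y K θ k a) y K θ' i).card)) := by gcongr
      _ = κ * (κ * (N.card * ((L + 1) * (r * K k)) + U')) + κ * (κ *
          ∑ a ∈ N, ∑ i ∈ range L, (piLev P J (anch X y K θ k a) y K θ' i).card) := by ring
      _ ≤ κ * (κ * (m * ((L + 1) * (r * K k)) + U)) + (κ * (L * (4 * (κ * m * r * K k)) +
          2 * κ * U) + 4 * n * K k * ∑ a ∈ range T, ∑ i ∈ range L, E a i) := by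
        refine Nat.add_le_add (by gcongr) (h4.trans ?_)
        gcongr
        exact h5.trans h7
      _ = _ := by rw [hk'.1]; ring
  have h10 := cancel_aux h9 hk'.2
  rw [← mul_add] at h10
  have h11 := Nat.le_of_mul_le_mul_left h10 hκ
  simp only [hE] at h11
  omega

theorem le_cube (n : ℕ) : n ≤ n ^ 3 := Nat.le_self_pow (by norm_num) n

theorem numC {n m r g0 x θ : ℕ} (hm : 0 < m) (hθ : θ * m ≤ g0 * x) (h : g0 * m ^ 2 ≤ r ^ 3 * x ^ 2) :
    ∃ v ≤ n, (∀ w ≤ n, w ≤ θ → w ≤ v ^ 3) ∧ v * m ≤ 2 * (r * x) := by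
  have h1 : θ * m ^ 3 ≤ (r * x) ^ 3 := by
    calc θ * m ^ 3 = (θ * m) * m ^ 2 := by ring
      _ ≤ (g0 * x) * m ^ 2 := by gcongr
      _ = (g0 * m ^ 2) * x := by ring
      _ ≤ (r ^ 3 * x ^ 2) * x := by gcongr
      _ = (r * x) ^ 3 := by ring
  rcases lt_or_ge (r * x) m with hc | hc
  · refine ⟨0, Nat.zero_le _, fun w _ hw => ?_, by simp⟩
    have h2 : (r * x) ^ 3 < m ^ 3 := Nat.pow_lt_pow_left hc (by norm_num)
    have h3 : θ * m ^ 3 < 1 * m ^ 3 := by omega
    have := Nat.lt_of_mul_lt_mul_right h3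
    omega
  · have h2 : r * x < (r * x / m + 1) * m := by
      rw [mul_comm _ m]; exact Nat.lt_mul_div_succ _ hm
    have h3 : r * x / m * m ≤ r * x := Nat.div_mul_le_self _ _
    refine ⟨min (r * x / m + 1) n, min_le_right _ _, fun w hwn hw => ?_, ?_⟩
    · rcases le_total (r * x / m + 1) n with hc' | hc'
      · rw [min_eq_left hc']
        have h4 : (r * x) ^ 3 < ((r * x / m + 1) * m) ^ 3 := Nat.pow_lt_pow_left h2 (by norm_num)
        rw [mul_pow (r * x / m + 1)] at h4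
        exact hw.trans (Nat.lt_of_mul_lt_mul_right (h1.trans_lt h4)).le
      · rw [min_eq_right hc']
        exact hwn.trans (le_cube n)
    · calc min (r * x / m + 1) n * m ≤ (r * x / m + 1) * m := by gcongr; exact min_le_left _ _
        _ = r * x / m * m + m := by ring
        _ ≤ 2 * (r * x) := by omega

theorem numB {n m r g0 g1 c0 x z θ θ' s h : ℕ} (hm : 0 < m) (hc0 : 0 < c0) (hr : 0 < r)
    (hs0 : 0 < s) (hh0 : 0 < h) (hθ : θ * m ≤ g0 * x) (hθ' : θ' * m ≤ g1 * z)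
    (hC : r ^ 3 * x ^ 2 ≤ g0 * m ^ 2) (h15 : c0 ^ 6 * g0 ^ 5 * g1 ^ 4 ≤ r ^ 15)
    (h2 : c0 * g1 ≤ r ^ 2) (hs : s ≤ θ') (hh : h ≤ x) :
    ∃ v ≤ n, (∀ w ≤ n, s * h * w ≤ θ ^ 2 * z → w ≤ v ^ 3) ∧
      s * h * v * c0 * m ≤ 2 * (r ^ 2 * z * x) := by
  have hsm : s * m ≤ g1 * z := le_trans (by gcongr) hθ'
  have a1 : c0 ^ 3 * g0 ^ 2 * g1 ^ 2 * x ≤ r ^ 6 * m := by
    refine (Nat.pow_le_pow_iff_left (two_ne_zero)).1 ?_
    refine Nat.le_of_mul_le_mul_left ?_ (pow_pos hr 3)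
    calc r ^ 3 * (c0 ^ 3 * g0 ^ 2 * g1 ^ 2 * x) ^ 2
        = c0 ^ 6 * g0 ^ 4 * g1 ^ 4 * (r ^ 3 * x ^ 2) := by ring
      _ ≤ c0 ^ 6 * g0 ^ 4 * g1 ^ 4 * (g0 * m ^ 2) := by gcongr
      _ = (c0 ^ 6 * g0 ^ 5 * g1 ^ 4) * m ^ 2 := by ring
      _ ≤ r ^ 15 * m ^ 2 := by gcongr
      _ = r ^ 3 * (r ^ 6 * m) ^ 2 := by ring
  set q := c0 * m * s * h with hq
  have hq0 : 0 < q := by positivity
  have a2 : q ≤ r ^ 2 * z * x := by
    calc q = c0 * (s * m) * h := by ring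
      _ ≤ c0 * (g1 * z) * x := by gcongr
      _ = (c0 * g1) * z * x := by ring
      _ ≤ r ^ 2 * z * x := by gcongr
  have a3 : r ^ 2 * z * x < (r ^ 2 * z * x / q + 1) * q := by
    rw [mul_comm _ q]; exact Nat.lt_mul_div_succ _ hq0
  have a4 : r ^ 2 * z * x / q * q ≤ r ^ 2 * z * x := Nat.div_mul_le_self _ _
  refine ⟨min (r ^ 2 * z * x / q + 1) n, min_le_right _ _, fun w hwn hw => ?_, ?_⟩
  · rcases le_total (r ^ 2 * z * x / q + 1) n with hc' | hc'
    · rw [min_eq_left hc']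
      have b1 : (r ^ 2 * z * x) ^ 3 < ((r ^ 2 * z * x / q + 1) * q) ^ 3 :=
        Nat.pow_lt_pow_left a3 (by norm_num)
      rw [mul_pow (r ^ 2 * z * x / q + 1)] at b1
      have b2 : w * q ^ 3 ≤ (r ^ 2 * z * x) ^ 3 := by
        refine Nat.le_of_mul_le_mul_right ?_ hm
        calc w * q ^ 3 * m = (s * h * w) * c0 ^ 3 * (s * m) ^ 2 * h ^ 2 * m ^ 2 := by ring
          _ ≤ (θ ^ 2 * z) * c0 ^ 3 * (g1 * z) ^ 2 * x ^ 2 * m ^ 2 := by gcongr
          _ = (θ * m) ^ 2 * c0 ^ 3 * g1 ^ 2 * z ^ 3 * x ^ 2 := by ring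
          _ ≤ (g0 * x) ^ 2 * c0 ^ 3 * g1 ^ 2 * z ^ 3 * x ^ 2 := by gcongr
          _ = (c0 ^ 3 * g0 ^ 2 * g1 ^ 2 * x) * z ^ 3 * x ^ 3 := by ring
          _ ≤ (r ^ 6 * m) * z ^ 3 * x ^ 3 := by gcongr
          _ = (r ^ 2 * z * x) ^ 3 * m := by ring
      exact (Nat.lt_of_mul_lt_mul_right (b2.trans_lt b1)).le
    · rw [min_eq_right hc']
      exact hwn.trans (le_cube n)
  · calc s * h * min (r ^ 2 * z * x / q + 1) n * c0 * m = min (r ^ 2 * z * x / q + 1) n * q := by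
          ring
      _ ≤ (r ^ 2 * z * x / q + 1) * q := by gcongr; exact min_le_left _ _
      _ = r ^ 2 * z * x / q * q + q := by ring
      _ ≤ 2 * (r ^ 2 * z * x) := by omega

theorem numP {n w c0 r g0 g1 : ℕ} (hn : 0 < n) (hw : n ^ 9 ≤ w ^ 28) (hc0 : 2 ≤ c0)
    (hr : r = 2 * c0 * w) (hg0 : g0 = n / r + 1) (hg1 : g1 = g0 / r + 1) :
    2 ≤ r ∧ n ≤ g0 * r ∧ g0 ≤ g1 * r ∧ g0 ≤ n * r ∧ c0 ^ 6 * g0 ^ 5 * g1 ^ 4 ≤ r ^ 15 ∧
      c0 * g1 ≤ r ^ 2 := by
  have hw0 : 0 < w := by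
    rcases Nat.eq_zero_or_pos w with rfl | h
    · have := pow_pos hn 9
      simp at hw
      omega
    · exact h
  have hr2 : 2 * c0 ≤ r := by rw [hr]; exact Nat.le_mul_of_pos_right _ hw0
  have hr0 : 0 < r := by omega
  have a1 : n < g0 * r := by rw [hg0, mul_comm]; exact Nat.lt_mul_div_succ _ hr0
  have a2 : g0 < g1 * r := by rw [hg1, mul_comm]; exact Nat.lt_mul_div_succ _ hr0
  have a3 : g0 * r ≤ n + r := by
    rw [hg0, add_mul, one_mul]; exact Nat.add_le_add_right (Nat.div_mul_le_self _ _) _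
  have a4 : g1 * r ≤ g0 + r := by
    rw [hg1, add_mul, one_mul]; exact Nat.add_le_add_right (Nat.div_mul_le_self _ _) _
  have a5 : g0 ≤ n * r := by
    have b1 : n / r ≤ n := Nat.div_le_self _ _
    have b2 : n * 2 ≤ n * r := Nat.mul_le_mul_left _ (by omega)
    omega
  have hrr : r ≤ r ^ 2 := Nat.le_self_pow (by norm_num) r
  set N := max n (r ^ 2) with hN
  have hN1 : n ≤ N := le_max_left _ _
  have hN2 : r ^ 2 ≤ N := le_max_right _ _
  have a6 : g0 * r ≤ 2 * N := by omega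
  have a7 : g1 * r ^ 2 ≤ 3 * N := by
    calc g1 * r ^ 2 = (g1 * r) * r := by ring
      _ ≤ (g0 + r) * r := by gcongr
      _ = g0 * r + r ^ 2 := by ring
      _ ≤ 3 * N := by omega
  have hn4 : n ≤ w ^ 4 := by
    refine (Nat.pow_le_pow_iff_left (n := 7) (by norm_num)).1 ?_
    calc n ^ 7 ≤ n ^ 9 := Nat.pow_le_pow_right hn (by norm_num)
      _ ≤ w ^ 28 := hw
      _ = (w ^ 4) ^ 7 := by ring
  have a8 : 2592 * c0 ^ 6 * N ^ 9 ≤ r ^ 28 := by
    rcases le_total n (r ^ 2) with hc | hc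
    · rw [hN, max_eq_right hc]
      calc 2592 * c0 ^ 6 * (r ^ 2) ^ 9 ≤ (1024 * 2 ^ 4) * c0 ^ 6 * (r ^ 2) ^ 9 := by
            gcongr; norm_num
        _ ≤ (1024 * c0 ^ 4) * c0 ^ 6 * (r ^ 2) ^ 9 := by gcongr
        _ = (2 * c0) ^ 10 * r ^ 18 := by ring
        _ ≤ r ^ 10 * r ^ 18 := by gcongr
        _ = r ^ 28 := by ring
    · rw [hN, max_eq_left hc, hr]
      calc 2592 * c0 ^ 6 * n ^ 9 ≤ 2 ^ 28 * c0 ^ 28 * w ^ 28 := by
            gcongr
            · norm_num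
            · omega
            · norm_num
        _ = (2 * c0 * w) ^ 28 := by ring
  have a9 : 3 * c0 * N ≤ r ^ 4 := by
    rcases le_total n (r ^ 2) with hc | hc
    · rw [hN, max_eq_right hc]
      calc 3 * c0 * r ^ 2 ≤ (2 * c0) ^ 2 * r ^ 2 := by gcongr; nlinarith
        _ ≤ r ^ 2 * r ^ 2 := by gcongr
        _ = r ^ 4 := by ring
    · rw [hN, max_eq_left hc, hr]
      calc 3 * c0 * n ≤ 16 * c0 ^ 4 * w ^ 4 := by
            gcongr
            · norm_num
            · exact Nat.le_self_pow (by norm_num) c0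
        _ = (2 * c0 * w) ^ 4 := by ring
  refine ⟨by omega, a1.le, a2.le, a5, ?_, ?_⟩
  · refine Nat.le_of_mul_le_mul_right ?_ (pow_pos hr0 13)
    calc c0 ^ 6 * g0 ^ 5 * g1 ^ 4 * r ^ 13 = c0 ^ 6 * (g0 * r) ^ 5 * (g1 * r ^ 2) ^ 4 := by ring
      _ ≤ c0 ^ 6 * (2 * N) ^ 5 * (3 * N) ^ 4 := by gcongr
      _ = 2592 * c0 ^ 6 * N ^ 9 := by ring
      _ ≤ r ^ 28 := a8
      _ = r ^ 15 * r ^ 13 := by ring
  · refine Nat.le_of_mul_le_mul_right ?_ (pow_pos hr0 2)
    calc c0 * g1 * r ^ 2 = c0 * (g1 * r ^ 2) := by ring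
      _ ≤ c0 * (3 * N) := by gcongr
      _ = 3 * c0 * N := by ring
      _ ≤ r ^ 4 := a9
      _ = r ^ 2 * r ^ 2 := by ring

/-- The combinatorial core: the number of correctly covered positive examples is bounded by
`r` times the noise budget, up to imbalances of features. -/
theorem top_bound (hP : Desig y S T J Pi) {n L m κ r g0 g1 c0 lb lc : ℕ} (hG : Grid K n L m κ)
    (hn : ∀ τ, X τ ⊆ range n) (hT : ∀ τ, T ≤ τ → X τ = ∅) (hm : (noise X y S T).card ≤ m)
    (hlb : n < 2 ^ lb) (hlc : ∀ k, K k ≤ 2 ^ lc)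
    (hc0 : 8 * (5 * L + 1) * lb * lc ≤ c0) (hc0' : 0 < c0) (hr : 1 ≤ r) (hng : n ≤ g0 * r)
    (hg01 : g0 ≤ g1 * r) (hg0n : g0 ≤ n * r) (h15 : c0 ^ 6 * g0 ^ 5 * g1 ^ 4 ≤ r ^ 15)
    (h2 : c0 * g1 ≤ r ^ 2) :
    κ ^ 2 * (piOf Pi J X).card ≤ (20 * L ^ 2 + 5 * L + 1) * (κ ^ 2 * m * r) +
      (κ ^ 2 * errU X y K (thr K m g0) T n L +
      ∑ k ∈ range L, ∑ a ∈ range T, errB (anch X y K (thr K m g0) k a) y K m κ T n L +
      3 * ∑ k ∈ range L, ∑ a ∈ range T,
        κ * errU (anch X y K (thr K m g0) k a) y K (thr K m g1) T n L +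
      8 * n * ∑ k ∈ range L, ∑ a ∈ range T, ∑ i ∈ range L, ∑ b ∈ range lb, ∑ c ∈ range lc,
        errB (nbr X y K (thr K m g0) (thr K m g1) k a i (2 ^ b) (2 ^ c)) y K m κ T n L) := by
  have h1 := level_bound (X := X) (K := K) (θ := thr K m g0) (L := L) (D := r * m) hP hn
    Subset.rfl
    (fun τ hτ _ => lt_of_le_of_lt ((cnt_le_noise (hP τ hτ).2.2 (hP τ hτ).1.le).trans hm) hG.h0)
    (fun k _ => by
      have c1 := lt_thr_succ K hG.hpos g0 k
      rw [card_range]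
      calc n * K k ≤ g0 * r * K k := by gcongr
        _ = (g0 * K k) * r := by ring
        _ ≤ ((thr K m g0 k + 1) * m) * r := by gcongr
        _ = _ := by ring)
  rw [card_range, hG.hlast, ← hG.hm] at h1
  have h3 : ∀ k ∈ range L, κ ^ 2 * (piLev Pi J X y K (thr K m g0) k).card ≤
      4 * (5 * L + 1) * (κ ^ 2 * m * r) +
      (∑ a ∈ range T, errB (anch X y K (thr K m g0) k a) y K m κ T n L +
      (3 * ∑ a ∈ range T, κ * errU (anch X y K (thr K m g0) k a) y K (thr K m g1) T n L +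
      8 * n * ∑ a ∈ range T, ∑ i ∈ range L, ∑ b ∈ range lb, ∑ c ∈ range lc,
        errB (nbr X y K (thr K m g0) (thr K m g1) k a i (2 ^ b) (2 ^ c)) y K m κ T n L)) := by
    intro k hk
    have hk' := mem_range.1 hk
    rcases le_total (g0 * m ^ 2) (r ^ 3 * K k ^ 2) with hc | hc
    · obtain ⟨v, hvn, hv1, hv2⟩ := numC (n := n) hG.hpos (thr_mul_le K m g0 k) hc
      have := levelC hP hG hn hm hk' hvn hv1 hv2
      omega
    · have := levelB (g1 := g1) hP hG hn hT hm hk' hlb (hlc k) hc0 hc0' hr hg01 hg0n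
        (fun i b c hb hc' => numB hG.hpos hc0' hr (by positivity) (by positivity)
          (thr_mul_le K m g0 k) (thr_mul_le K m g1 i) hc h15 h2 hb hc')
      have e : 4 * (5 * L + 1) * (κ ^ 2 * m * r) = 2 * (2 * (5 * L + 1) * (κ ^ 2 * m * r)) := by
        ring
      omega
  have h4 := sum_le_sum h3
  rw [← mul_sum, sum_add_distrib, sum_add_distrib, sum_add_distrib, sum_const, card_range,
    smul_eq_mul, ← mul_sum, ← mul_sum] at h4
  have h5 := Nat.mul_le_mul_left (κ ^ 2) h1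
  have h6 : κ ^ 2 * m ≤ κ ^ 2 * m * r := Nat.le_mul_of_pos_right _ hr
  have e : (20 * L ^ 2 + 5 * L + 1) * (κ ^ 2 * m * r) = κ ^ 2 * (L * (r * m)) + κ ^ 2 * m * r +
      L * (4 * (5 * L + 1) * (κ ^ 2 * m * r)) := by ring
  simp only [mul_add] at h5
  omega

end Pool.Agent.Lib.MP_ee7726_lc
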