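import Mathlib
import Pool.Agent.Lib.MP_ee7726_lc.Top

namespace Pool.Agent.Lib.MP_ee7726_lc

open Finset

@[irreducible] def pL (n : ℕ) : ℕ := n.size + 20
@[irreducible] def pk (n : ℕ) : ℕ := (2 ^ pL n) ^ 65
def pK (n : ℕ) : ℕ → ℕ := fun k => 2 ^ (pL n - k) * pk n
@[irreducible] def pm (n : ℕ) : ℕ := n * pk n
@[irreducible] def pc (n : ℕ) : ℕ := 8 * (5 * pL n + 1) * pL n * (66 * pL n)
@[irreducible] def pw (n : ℕ) : ℕ := Nat.findGreatest (fun w => w ^ 28 ≤ n ^ 9) n + 1
@[irreducible] def pr (n : ℕ) : ℕ := 2 * pc n * pw n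
@[irreducible] def pg0 (n : ℕ) : ℕ := n / pr n + 1
@[irreducible] def pg1 (n : ℕ) : ℕ := pg0 n / pr n + 1
@[irreducible] def pR (n : ℕ) : ℕ := 2 * ((20 * pL n ^ 2 + 5 * pL n + 1) * pr n) + 3
@[irreducible] def pT (n : ℕ) : ℕ := pR n * pm n

/-- The features computed from one sequence of sets. -/
def base (n : ℕ) (Y : Inst) (y : ℕ → Bool) (p : ℕ × ℕ × ℕ × ℕ × ℕ) : ℕ → Bool :=
  fun τ =>
  if p.2.1 = 0 then
    if p.2.2.2.2 < n then
      has (lev Y y (pK n) (thr (pK n) (pm n) p.2.2.1) (min p.2.2.2.1 (pL n))) p.2.2.2.2 τ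
    else hi (lev Y y (pK n) (thr (pK n) (pm n) p.2.2.1) (min p.2.2.2.1 (pL n)))
      (thr (pK n) (pm n) p.2.2.1 (min p.2.2.2.1 (pL n))) τ
  else if p.2.1 = 1 then
    if p.2.2.2.2 < n then
      has (lev Y y (pK n) (thr (pK n) (pm n) (p.2.2.1 ^ 2)) (min p.2.2.2.1 (pL n))) p.2.2.2.2 τ
    else hi (lev Y y (pK n) (thr (pK n) (pm n) (p.2.2.1 ^ 2)) (min p.2.2.2.1 (pL n)))
      (thr (pK n) (pm n) (p.2.2.1 ^ 2) (min p.2.2.2.1 (pL n))) τ
  else if p.2.1 = 2 then
    if p.2.2.2.2 < n then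
      lo (anch Y y (pK n) (thr (pK n) (pm n) (p.2.2.1 ^ 2)) (min p.2.2.2.1 (pL n)) p.1)
        (thr (pK n) (pm n) p.2.2.1 (min p.2.2.2.1 (pL n))) p.2.2.2.2 τ
    else hi (anch Y y (pK n) (thr (pK n) (pm n) (p.2.2.1 ^ 2)) (min p.2.2.2.1 (pL n)) p.1)
      (thr (pK n) (pm n) p.2.2.1 (min p.2.2.2.1 (pL n))) τ
  else true

/-- The transformed sequences on which features are computed. -/
def trans (n : ℕ) (X : Inst) (y : ℕ → Bool) (q : ℕ × ℕ × ℕ × ℕ × ℕ × ℕ) : Inst :=
  fun τ =>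
  if q.2.1 = 0 then X τ
  else if q.2.1 = 1 then
    anch X y (pK n) (thr (pK n) (pm n) (pg0 n)) (min q.2.2.1 (pL n)) q.1 τ
  else nbr X y (pK n) (thr (pK n) (pm n) (pg0 n)) (thr (pK n) (pm n) (pg1 n))
    (min q.2.2.1 (pL n)) q.1 (min q.2.2.2.1 (pL n)) (2 ^ min q.2.2.2.2.1 (pL n))
    (2 ^ min q.2.2.2.2.2 (66 * pL n)) τ

abbrev Idx := (ℕ × ℕ × ℕ × ℕ × ℕ × ℕ) × (ℕ × ℕ × ℕ × ℕ × ℕ)

def feat (n : ℕ) (X : Inst) (y : ℕ → Bool) (f : Idx) : ℕ → Bool := base n (trans n X y f.1) y f.2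

def idxQ (n : ℕ) : Finset (ℕ × ℕ × ℕ × ℕ × ℕ × ℕ) :=
  range (pT n) ×ˢ range 3 ×ˢ range (pL n) ×ˢ range (pL n) ×ˢ range (pL n) ×ˢ range (66 * pL n)

def idxB (n : ℕ) : Finset (ℕ × ℕ × ℕ × ℕ × ℕ) :=
  range (pT n) ×ˢ range 4 ×ˢ range (n + 3) ×ˢ range (pL n + 1) ×ˢ range (n + 1)

def idx (n : ℕ) : Finset Idx := idxQ n ×ˢ idxB n

def errBase (n : ℕ) (Y : Inst) (y : ℕ → Bool) (T : ℕ) : ℕ := ∑ p ∈ idxB n, imb y T (base n Y y p)

variable {n T : ℕ} {X Y : Inst} {y : ℕ → Bool}

theorem errBase_eq (n : ℕ) (Y : Inst) (y : ℕ → Bool) (T : ℕ) : errBase n Y y T =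
    pT n * ∑ g ∈ range (n + 3), errU Y y (pK n) (thr (pK n) (pm n) g) T n (pL n) +
    pT n * ∑ g ∈ range (n + 3), errU Y y (pK n) (thr (pK n) (pm n) (g ^ 2)) T n (pL n) +
    ∑ a ∈ range (pT n), ∑ g ∈ range (n + 3), ∑ k ∈ range (pL n + 1),
      (imb y T (hi (anch Y y (pK n) (thr (pK n) (pm n) (g ^ 2)) k a) (thr (pK n) (pm n) g k)) +
        ∑ j ∈ range n, imb y T
          (lo (anch Y y (pK n) (thr (pK n) (pm n) (g ^ 2)) k a) (thr (pK n) (pm n) g k) j)) +
    pT n * ((n + 3) * ((pL n + 1) * ((n + 1) * imb y T (fun _ => true)))) := by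
  unfold errBase idxB errU
  simp only [sum_product]
  have e : ∀ a ∈ range (pT n), ∑ ty ∈ range 4, ∑ g ∈ range (n + 3), ∑ k ∈ range (pL n + 1),
      ∑ j ∈ range (n + 1), imb y T (base n Y y (a, ty, g, k, j)) =
      ∑ g ∈ range (n + 3), ∑ k ∈ range (pL n + 1),
        (imb y T (hi (lev Y y (pK n) (thr (pK n) (pm n) g) k) (thr (pK n) (pm n) g k)) +
          ∑ j ∈ range n, imb y T (has (lev Y y (pK n) (thr (pK n) (pm n) g) k) j)) +
      ∑ g ∈ range (n + 3), ∑ k ∈ range (pL n + 1),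
        (imb y T (hi (lev Y y (pK n) (thr (pK n) (pm n) (g ^ 2)) k) (thr (pK n) (pm n) (g ^ 2) k)) +
          ∑ j ∈ range n, imb y T (has (lev Y y (pK n) (thr (pK n) (pm n) (g ^ 2)) k) j)) +
      ∑ g ∈ range (n + 3), ∑ k ∈ range (pL n + 1),
      (imb y T (hi (anch Y y (pK n) (thr (pK n) (pm n) (g ^ 2)) k a) (thr (pK n) (pm n) g k)) +
        ∑ j ∈ range n, imb y T
          (lo (anch Y y (pK n) (thr (pK n) (pm n) (g ^ 2)) k a) (thr (pK n) (pm n) g k) j)) +
      (n + 3) * ((pL n + 1) * ((n + 1) * imb y T (fun _ => true))) := by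
    intro a _
    rw [sum_range_succ, sum_range_succ, sum_range_succ, sum_range_one]
    congr 1
    · congr 1
      · congr 1
        all_goals
          refine sum_congr rfl fun g _ => sum_congr rfl fun k hk => ?_
          have hk' : min k (pL n) = k := min_eq_left (Nat.le_of_lt_succ (mem_range.1 hk))
          rw [sum_range_succ, add_comm]
          congr 1
          · congr 1
            funext τ
            simp [base, hk']
          · refine sum_congr rfl fun j hj => ?_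
            congr 1
            funext τ
            simp [base, hk', mem_range.1 hj]
      · refine sum_congr rfl fun g _ => sum_congr rfl fun k hk => ?_
        have hk' : min k (pL n) = k := min_eq_left (Nat.le_of_lt_succ (mem_range.1 hk))
        rw [sum_range_succ, add_comm]
        congr 1
        · congr 1
          funext τ
          simp [base, hk']
        · refine sum_congr rfl fun j hj => ?_
          congr 1
          funext τ
          simp [base, hk', mem_range.1 hj]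
    · have : ∀ g k j, base n Y y (a, 3, g, k, j) = fun _ => true := fun g k j => by
        funext τ
        simp [base]
      simp [this]
  rw [sum_congr rfl e]
  simp only [sum_add_distrib (s := range (pT n)), sum_const, card_range, smul_eq_mul]

theorem errU_le_errBase {g : ℕ} (hg : g < n + 3) :
    pT n * errU Y y (pK n) (thr (pK n) (pm n) g) T n (pL n) ≤ errBase n Y y T := by
  rw [errBase_eq]
  have := Nat.mul_le_mul_left (pT n) (single_le_sum
    (f := fun g => errU Y y (pK n) (thr (pK n) (pm n) g) T n (pL n)) (fun _ _ => Nat.zero_le _)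
    (mem_range.2 hg))
  omega

theorem const_le_errBase : pT n * imb y T (fun _ => true) ≤ errBase n Y y T := by
  rw [errBase_eq]
  have : imb y T (fun _ => true) ≤
      (n + 3) * ((pL n + 1) * ((n + 1) * imb y T (fun _ => true))) :=
    (Nat.le_mul_of_pos_left _ (Nat.succ_pos _)).trans ((Nat.le_mul_of_pos_left _
      (Nat.succ_pos _)).trans (Nat.le_mul_of_pos_left _ (Nat.succ_pos _)))
  have := Nat.mul_le_mul_left (pT n) this
  omega

theorem errB_le_errBase (h : pk n ≤ pT n) :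
    errB Y y (pK n) (pm n) (pk n) (pT n) n (pL n) ≤ errBase n Y y (pT n) := by
  rw [errBase_eq]
  unfold errB errA
  rw [sum_add_distrib, ← mul_sum, sum_comm (s := range (n + 1))]
  have hsub : range (n + 1) ⊆ range (n + 3) := range_mono (by omega)
  have h1 := Nat.mul_le_mul h (sum_le_sum_of_subset
    (f := fun g => errU Y y (pK n) (thr (pK n) (pm n) (g ^ 2)) (pT n) n (pL n)) hsub)
  have h2 := sum_le_sum (s := range (pT n)) fun a _ => sum_le_sum_of_subset
    (f := fun g => ∑ k ∈ range (pL n + 1),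
      (imb y (pT n) (hi (anch Y y (pK n) (thr (pK n) (pm n) (g ^ 2)) k a) (thr (pK n) (pm n) g k)) +
        ∑ j ∈ range n, imb y (pT n)
          (lo (anch Y y (pK n) (thr (pK n) (pm n) (g ^ 2)) k a) (thr (pK n) (pm n) g k) j))) hsub
  omega

def errAll (n : ℕ) (X : Inst) (y : ℕ → Bool) (T : ℕ) : ℕ := ∑ f ∈ idx n, imb y T (feat n X y f)

theorem pL_pos (n : ℕ) : 0 < pL n := by unfold pL; omega

set_option maxHeartbeats 400000 in
theorem errAll_eq (n : ℕ) (X : Inst) (y : ℕ → Bool) (T : ℕ) : errAll n X y T =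
    pT n * (pL n * (pL n * (pL n * (66 * pL n * errBase n X y T)))) +
    pL n * (pL n * (66 * pL n * ∑ k ∈ range (pL n), ∑ a ∈ range (pT n),
      errBase n (anch X y (pK n) (thr (pK n) (pm n) (pg0 n)) k a) y T)) +
    ∑ k ∈ range (pL n), ∑ a ∈ range (pT n), ∑ i ∈ range (pL n), ∑ b ∈ range (pL n),
      ∑ c ∈ range (66 * pL n), errBase n (nbr X y (pK n) (thr (pK n) (pm n) (pg0 n))
        (thr (pK n) (pm n) (pg1 n)) k a i (2 ^ b) (2 ^ c)) y T := by
  unfold errAll idx
  rw [sum_product]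
  change ∑ q ∈ idxQ n, errBase n (trans n X y q) y T = _
  unfold idxQ
  simp only [sum_product]
  have e : ∀ a ∈ range (pT n), ∑ md ∈ range 3, ∑ k ∈ range (pL n), ∑ i ∈ range (pL n),
      ∑ b ∈ range (pL n), ∑ c ∈ range (66 * pL n), errBase n (trans n X y (a, md, k, i, b, c)) y T =
      pL n * (pL n * (pL n * (66 * pL n * errBase n X y T))) +
      pL n * (pL n * (66 * pL n * ∑ k ∈ range (pL n),
        errBase n (anch X y (pK n) (thr (pK n) (pm n) (pg0 n)) k a) y T)) +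
      ∑ k ∈ range (pL n), ∑ i ∈ range (pL n), ∑ b ∈ range (pL n),
      ∑ c ∈ range (66 * pL n), errBase n (nbr X y (pK n) (thr (pK n) (pm n) (pg0 n))
        (thr (pK n) (pm n) (pg1 n)) k a i (2 ^ b) (2 ^ c)) y T := by
    intro a _
    rw [sum_range_succ, sum_range_succ, sum_range_one]
    refine congrArg₂ (· + ·) (congrArg₂ (· + ·) ?_ ?_) ?_
    · have : ∀ k i b c, trans n X y (a, 0, k, i, b, c) = X := fun k i b c => by
        funext τ
        simp [trans]
      simp only [this, sum_const, card_range, smul_eq_mul]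
    · rw [mul_sum, mul_sum, mul_sum]
      refine sum_congr rfl fun k hk => ?_
      have : ∀ i b c, trans n X y (a, 1, k, i, b, c) =
          anch X y (pK n) (thr (pK n) (pm n) (pg0 n)) k a := fun i b c => by
        funext τ
        simp [trans, min_eq_left (mem_range.1 hk).le]
      simp only [this, sum_const, card_range, smul_eq_mul]
    · refine sum_congr rfl fun k hk => sum_congr rfl fun i hi => sum_congr rfl fun b hb =>
        sum_congr rfl fun c hc => ?_
      refine congrArg (fun Z => errBase n Z y T) ?_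
      funext τ
      simp [trans, min_eq_left (mem_range.1 hk).le, min_eq_left (mem_range.1 hi).le,
        min_eq_left (mem_range.1 hb).le, min_eq_left (mem_range.1 hc).le]
  rw [sum_congr rfl e, sum_add_distrib, sum_add_distrib, sum_const, card_range, smul_eq_mul,
    ← mul_sum, ← mul_sum, ← mul_sum, sum_comm, sum_comm (s := range (pT n))]

theorem lt_two_pow_pL (n : ℕ) : 2 ^ 20 * (n + 1) ≤ 2 ^ pL n := by
  unfold pL
  rw [pow_add, mul_comm]
  exact Nat.mul_le_mul_right _ (Nat.lt_size_self n)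

theorem pL_lt (n : ℕ) : pL n + 1 ≤ 2 ^ pL n := Nat.lt_two_pow_self

theorem pk_pos (n : ℕ) : 0 < pk n := by unfold pk; positivity

theorem grid (hn : 0 < n) : Grid (pK n) n (pL n) (pm n) (pk n) where
  hm := by unfold pm; rfl
  hpos := by unfold pm; exact Nat.mul_pos hn (pk_pos n)
  h0 := by
    have := lt_two_pow_pL n
    unfold pm pK
    exact Nat.mul_lt_mul_of_pos_right (by simp only [Nat.sub_zero]; omega) (pk_pos n)
  hstep := fun k hk => by
    unfold pK
    refine ⟨?_, Nat.le_mul_of_pos_left _ (by positivity)⟩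
    rw [show pL n - k = pL n - (k + 1) + 1 by omega, pow_succ]
    ring
  hlast := by simp [pK]

theorem pK_le (n k : ℕ) : pK n k ≤ 2 ^ (66 * pL n) := by
  unfold pK pk
  calc 2 ^ (pL n - k) * (2 ^ pL n) ^ 65 ≤ 2 ^ pL n * (2 ^ pL n) ^ 65 := by
        gcongr
        · norm_num
        · omega
    _ = _ := by ring

theorem pw_spec (n : ℕ) : n ^ 9 ≤ pw n ^ 28 := by
  unfold pw
  rcases le_or_gt (Nat.findGreatest (fun w => w ^ 28 ≤ n ^ 9) n + 1) n with h | h
  · exact (not_le.1 (Nat.findGreatest_is_greatest (P := fun w => w ^ 28 ≤ n ^ 9)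
      (Nat.lt_succ_self _) h)).le
  · exact (Nat.pow_le_pow_left h.le 9).trans (Nat.pow_le_pow_right (Nat.succ_pos _) (by norm_num))

theorem pw_le (n : ℕ) : pw n ≤ n + 1 := by
  unfold pw; exact Nat.succ_le_succ (Nat.findGreatest_le n)

theorem pw_pos (n : ℕ) : 1 ≤ pw n := by
  unfold pw; exact Nat.succ_pos _

theorem pw_pred (n : ℕ) : (pw n - 1) ^ 28 ≤ n ^ 9 := by
  unfold pw
  exact Nat.findGreatest_spec (P := fun w => w ^ 28 ≤ n ^ 9) (Nat.zero_le n) (by simp)

theorem pc_ge (n : ℕ) : 2 ≤ pc n := by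
  have := pL_pos n
  unfold pc
  calc 2 ≤ 8 * 1 * 1 * 1 := by norm_num
    _ ≤ _ := by gcongr <;> omega

theorem pc_le (n : ℕ) : pc n ≤ 3168 * pL n ^ 3 := by
  have := pL_pos n
  unfold pc
  calc 8 * (5 * pL n + 1) * pL n * (66 * pL n) ≤ 8 * (6 * pL n) * pL n * (66 * pL n) := by
        gcongr; omega
    _ = _ := by ring

theorem pR_le (n : ℕ) : pR n ≤ 400000 * pL n ^ 5 * pw n := by
  have h0 := pL_pos n
  have h1 : 1 ≤ pw n := pw_pos n
  have h2 : pL n ≤ pL n ^ 2 := Nat.le_self_pow (by norm_num) _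
  have h3 : 1 ≤ pL n ^ 5 * pw n := Nat.mul_pos (by positivity) h1
  have h4 : 2 * ((20 * pL n ^ 2 + 5 * pL n + 1) * pr n) ≤ 329472 * (pL n ^ 5 * pw n) := by
    unfold pr
    calc 2 * ((20 * pL n ^ 2 + 5 * pL n + 1) * (2 * pc n * pw n))
        ≤ 2 * ((26 * pL n ^ 2) * (2 * (3168 * pL n ^ 3) * pw n)) := by
          gcongr
          · omega
          · exact pc_le n
      _ = _ := by ring
  unfold pR
  rw [mul_assoc]
  omega

theorem pRn_le (n : ℕ) : pR n * n ≤ (2 ^ pL n) ^ 8 := by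
  have h1 := lt_two_pow_pL n
  have h2 := pL_lt n
  calc pR n * n ≤ 400000 * pL n ^ 5 * pw n * n := by gcongr; exact pR_le n
    _ ≤ 2 ^ pL n * (2 ^ pL n) ^ 5 * 2 ^ pL n * 2 ^ pL n := by
      have := pw_le n
      gcongr <;> omega
    _ = _ := by ring

theorem pT_le (n : ℕ) : pT n ≤ (2 ^ pL n) ^ 8 * pk n := by
  unfold pT pm
  rw [← mul_assoc]
  exact Nat.mul_le_mul_right _ (pRn_le n)

theorem card_idx (n : ℕ) : (idx n).card ≤ pT n ^ 2 * (2 ^ pL n) ^ 9 := by
  have h1 := lt_two_pow_pL n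
  have h2 := pL_lt n
  simp only [idx, idxQ, idxB, card_product, card_range]
  calc _ = pT n ^ 2 * (792 * pL n ^ 4 * (n + 3) * (pL n + 1) * (n + 1)) := by ring
    _ ≤ pT n ^ 2 * (2 ^ pL n * (2 ^ pL n) ^ 4 * 2 ^ pL n * 2 ^ pL n * 2 ^ pL n) := by
      gcongr <;> omega
    _ ≤ pT n ^ 2 * (2 ^ pL n) ^ 9 := by
      gcongr
      calc _ = (2 ^ pL n) ^ 8 := by ring
        _ ≤ _ := Nat.pow_le_pow_right (by positivity) (by norm_num)

/-- Examples on which the disjunction of the coordinates in `S` errs. -/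
def bad (X : Inst) (y : ℕ → Bool) (S : Finset ℕ) (T : ℕ) : Finset ℕ :=
  (range T).filter (fun τ => ¬ (y τ = true ↔ (X τ ∩ S).Nonempty))

/-- If all features are nearly balanced then every disjunction errs often. -/
theorem epoch (hn : 0 < n) (S : Finset ℕ) (hX : ∀ τ, X τ ⊆ range n)
    (hT : ∀ τ, pT n ≤ τ → X τ = ∅)
    (hE : errAll n X y (pT n) ^ 2 ≤ (idx n).card * (pT n * (idx n).card)) :
    pm n < (bad X y S (pT n)).card := by
  by_contra hc
  rw [not_lt] at hc
  classical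
  set J : ℕ → ℕ := fun τ => if h : (X τ ∩ S).Nonempty then h.choose else 0 with hJ
  set Pi := (range (pT n)).filter (fun τ => y τ = true ∧ (X τ ∩ S).Nonempty) with hPi
  have hJ' : ∀ τ ∈ Pi, J τ ∈ X τ ∩ S := fun τ hτ => by
    have h := (mem_filter.1 hτ).2.2
    simp only [hJ, dif_pos h]
    exact h.choose_spec
  have hP : Desig y S (pT n) J Pi := fun τ hτ =>
    ⟨mem_range.1 (mem_filter.1 hτ).1, (mem_filter.1 hτ).2.1, (mem_inter.1 (hJ' τ hτ)).2⟩
  have e1 : piOf Pi J X = Pi := filter_true_of_mem fun τ hτ => (mem_inter.1 (hJ' τ hτ)).1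
  have hm : (noise X y S (pT n)).card ≤ pm n := by
    refine le_trans (card_le_card fun τ hτ => ?_) hc
    have := mem_filter.1 hτ
    exact mem_filter.2 ⟨this.1, by simp [this.2.1, this.2.2]⟩
  have hG := grid hn
  obtain ⟨a1, a2, a3, a4, a5, a6⟩ := numP (g0 := pg0 n) (g1 := pg1 n) hn (pw_spec n) (pc_ge n)
    (r := pr n) (by unfold pr; rfl) (by unfold pg0; rfl) (by unfold pg1; rfl)
  have hlb : n < 2 ^ pL n := by have := lt_two_pow_pL n; omega
  have h1 := top_bound (g1 := pg1 n) hP hG hX hT hm hlb (pK_le n) (c0 := pc n) (by unfold pc; rfl)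
    (by have := pc_ge n; omega) (by omega) a2 a3 a4 a5 a6
  rw [e1] at h1
  have hkT : pk n ≤ pT n := by
    unfold pT pm pR
    exact (Nat.le_mul_of_pos_left _ hn).trans (Nat.le_mul_of_pos_left _ (by omega))
  have hg0 : pg0 n < n + 3 := by
    have := Nat.div_le_self n (pr n)
    unfold pg0; omega
  have hg1 : pg1 n < n + 3 := by
    have := Nat.div_le_self n (pr n)
    have := Nat.div_le_self (pg0 n) (pr n)
    have h3 : pg0 n / pr n * 2 ≤ pg0 n / pr n * pr n := Nat.mul_le_mul_left _ a1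
    have h4 := Nat.div_mul_le_self (pg0 n) (pr n)
    unfold pg1; omega
  have hL := pL_pos n
  have hmul : ∀ x, x ≤ pL n * (pL n * (66 * pL n * x)) := fun x =>
    (Nat.le_mul_of_pos_left _ (by omega)).trans ((Nat.le_mul_of_pos_left _ hL).trans
      (Nat.le_mul_of_pos_left _ hL))
  have hE0 : pT n * errBase n X y (pT n) ≤ errAll n X y (pT n) := by
    rw [errAll_eq]
    have := Nat.mul_le_mul_left (pT n) ((hmul (errBase n X y (pT n))).trans
      (Nat.le_mul_of_pos_left _ hL))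
    omega
  have hE1 : ∑ k ∈ range (pL n), ∑ a ∈ range (pT n),
      errBase n (anch X y (pK n) (thr (pK n) (pm n) (pg0 n)) k a) y (pT n) ≤
      errAll n X y (pT n) := by
    rw [errAll_eq]
    have := hmul (∑ k ∈ range (pL n), ∑ a ∈ range (pT n),
      errBase n (anch X y (pK n) (thr (pK n) (pm n) (pg0 n)) k a) y (pT n))
    omega
  have hE2 : ∑ k ∈ range (pL n), ∑ a ∈ range (pT n), ∑ i ∈ range (pL n), ∑ b ∈ range (pL n),
      ∑ c ∈ range (66 * pL n), errBase n (nbr X y (pK n) (thr (pK n) (pm n) (pg0 n))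
        (thr (pK n) (pm n) (pg1 n)) k a i (2 ^ b) (2 ^ c)) y (pT n) ≤ errAll n X y (pT n) := by
    rw [errAll_eq]
    omega
  have hsq : ∀ x, pT n * x ≤ errBase n X y (pT n) → pk n ^ 2 * x ≤ errAll n X y (pT n) :=
    fun x hx => by
      calc pk n ^ 2 * x ≤ pT n ^ 2 * x := by gcongr
        _ = pT n * (pT n * x) := by ring
        _ ≤ pT n * errBase n X y (pT n) := by gcongr
        _ ≤ _ := hE0
  have b1 := hsq _ (errU_le_errBase hg0)
  have b2 := hsq _ const_le_errBase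
  have b3 := le_trans (sum_le_sum fun k _ => sum_le_sum fun a _ => errB_le_errBase hkT) hE1
  have b4 := le_trans (sum_le_sum fun k _ => sum_le_sum fun a _ =>
    (Nat.mul_le_mul_right _ hkT).trans (errU_le_errBase hg1)) hE1
  have b5 := Nat.mul_le_mul_left (8 * n) (le_trans (sum_le_sum fun k _ => sum_le_sum fun a _ =>
    sum_le_sum fun i _ => sum_le_sum fun b _ => sum_le_sum fun c _ => errB_le_errBase hkT) hE2)
  have c1 : pos y (pT n) (fun _ => true) ≤ Pi.card + pm n := by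
    refine le_trans (card_le_card (t := Pi ∪ bad X y S (pT n)) fun τ hτ => ?_)
      ((card_union_le _ _).trans (Nat.add_le_add_left hc _))
    have := mem_filter.1 hτ
    by_cases h : (X τ ∩ S).Nonempty
    · exact mem_union_left _ (mem_filter.2 ⟨this.1, this.2.1, h⟩)
    · exact mem_union_right _ (mem_filter.2 ⟨this.1, by simp [this.2.1, h]⟩)
  have c2 : pT n ≤ pos y (pT n) (fun _ => true) + neg y (pT n) (fun _ => true) := by
    refine le_trans ?_ (card_union_le _ _)
    conv_lhs => rw [← card_range (pT n)]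
    refine card_le_card fun τ hτ => ?_
    cases h : y τ <;> simp [h, mem_range.1 hτ]
  have c3 := neg_le y (pT n) (fun _ => true)
  have c4 : pk n ^ 2 * pT n ≤
      pk n ^ 2 * (2 * Pi.card + 2 * pm n + imb y (pT n) (fun _ => true)) := by
    gcongr; omega
  have e2 : pk n ^ 2 * pT n = 2 * ((20 * pL n ^ 2 + 5 * pL n + 1) * (pk n ^ 2 * pm n * pr n)) +
      3 * (pk n ^ 2 * pm n) := by
    unfold pT pR; ring
  have e3 : pk n ^ 2 * (2 * Pi.card + 2 * pm n + imb y (pT n) (fun _ => true)) =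
      2 * (pk n ^ 2 * Pi.card) + 2 * (pk n ^ 2 * pm n) +
        pk n ^ 2 * imb y (pT n) (fun _ => true) := by ring
  have c5 : errAll n X y (pT n) ≤ n * errAll n X y (pT n) := Nat.le_mul_of_pos_left _ hn
  have c6 : n * pk n ^ 3 ≤ n * (27 * errAll n X y (pT n)) := by
    have e4 : n * pk n ^ 3 = pk n ^ 2 * pm n := by unfold pm; ring
    have e5 : n * (27 * errAll n X y (pT n)) = 27 * (n * errAll n X y (pT n)) := by ring
    have e6 : 8 * n * errAll n X y (pT n) = 8 * (n * errAll n X y (pT n)) := by ring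
    omega
  have c7 := Nat.le_of_mul_le_mul_left c6 hn
  have hB : 2 ^ 20 ≤ 2 ^ pL n := by have := lt_two_pow_pL n; omega
  have c8 : (pk n ^ 3) ^ 2 < (pk n ^ 3) ^ 2 := by
    calc (pk n ^ 3) ^ 2 ≤ (27 * errAll n X y (pT n)) ^ 2 := by gcongr
      _ = 729 * errAll n X y (pT n) ^ 2 := by ring
      _ ≤ 729 * ((pT n ^ 2 * (2 ^ pL n) ^ 9) * (pT n * (pT n ^ 2 * (2 ^ pL n) ^ 9))) := by
        refine Nat.mul_le_mul_left _ (hE.trans ?_)
        have := card_idx n
        gcongr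
      _ = 729 * (2 ^ pL n) ^ 18 * pT n ^ 5 := by ring
      _ ≤ 729 * (2 ^ pL n) ^ 18 * ((2 ^ pL n) ^ 8 * pk n) ^ 5 := by
        gcongr; exact pT_le n
      _ = 729 * ((2 ^ pL n) ^ 58 * pk n ^ 5) := by ring
      _ < 2 ^ pL n * ((2 ^ pL n) ^ 58 * pk n ^ 5) := by
        have := pk_pos n
        gcongr
        omega
      _ = (2 ^ pL n) ^ 59 * pk n ^ 5 := by ring
      _ ≤ (2 ^ pL n) ^ 65 * pk n ^ 5 := by
        gcongr
        · exact Nat.one_le_two_pow
        · norm_num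
      _ = pk n * pk n ^ 5 := by rw [show (2 ^ pL n) ^ 65 = pk n by unfold pk; rfl]
      _ = (pk n ^ 3) ^ 2 := by ring
  exact lt_irrefl _ c8

end Pool.Agent.Lib.MP_ee7726_lc
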