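import Mathlib
import Pool.Prelude.Def_H_3587d628

namespace Pool.Agent.Lib.MP_ee7726_lc

/-- A deterministic online algorithm with a memory of bits. In a trial with memory `s` it receives
`x`, predicts `pred (s, x)`, then sees the label `y` and replaces its memory by `upd (s, x, y)`. -/
structure OnlineAlg where
  init : List Bool
  pred : List Bool × List Bool → Bool
  upd : List Bool × List Bool × Bool → List Bool

/-- The memory after the algorithm has processed a sequence of examples. -/
def OnlineAlg.memory (A : OnlineAlg) {n : ℕ} (s : List ((Fin n → Bool) × Bool)) : List Bool :=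
  s.foldl (fun m e => A.upd (m, List.ofFn e.1, e.2)) A.init

/-- The number of trials in which the prediction differs from the label. -/
def OnlineAlg.mistakes (A : OnlineAlg) {n : ℕ} (s : List ((Fin n → Bool) × Bool)) : ℕ :=
  (Finset.univ.filter (fun j : Fin s.length =>
    A.pred (A.memory (s.take j), List.ofFn (s.get j).1) ≠ (s.get j).2)).card

/-- Polynomial time per trial: prediction and update are computed by polynomial-time Turing
machines, and on examples over `{0,1}^n` the memory never exceeds a polynomial in `n`,
however long the sequence is. -/
def OnlineAlg.PolyTimePerTrial (A : OnlineAlg) : Prop :=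
  N68a2faeb.IsPolyTime A.pred ∧ N68a2faeb.IsPolyTime A.upd ∧
    ∃ p : Polynomial ℕ, ∀ (n : ℕ) (s : List ((Fin n → Bool) × Bool)),
      (A.memory s).length ≤ p.eval n

/-- The number of examples that are not consistent with the disjunction of the variables
in `S`. -/
def disjMistakes {n : ℕ} (S : Finset (Fin n)) (s : List ((Fin n → Bool) × Bool)) : ℕ :=
  (Finset.univ.filter (fun j : Fin s.length =>
    decide (∃ i ∈ S, (s.get j).1 i = true) ≠ (s.get j).2)).card

end Pool.Agent.Lib.MP_ee7726_lc
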