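import Mathlib
import Pool.Agent.Lib.MP_ee7726_lc.Feat

namespace Pool.Agent.Lib.MP_ee7726_lc

open Finset

def Agree (t : ℕ) (X X' : Inst) : Prop := ∀ a ≤ t, X a = X' a

def AgreeY (t : ℕ) (y y' : ℕ → Bool) : Prop := ∀ a < t, y a = y' a

variable {t n : ℕ} {X X' Z Z' W W' : Inst} {y y' : ℕ → Bool} {K θ θ' : ℕ → ℕ}

theorem cnt_congr (hZ : Agree t Z Z') (hy : AgreeY t y y') (j : ℕ) {τ : ℕ} (hτ : τ ≤ t) :
    cnt Z y j τ = cnt Z' y' j τ := by
  unfold cnt
  refine congrArg card (filter_congr fun a ha => ?_)
  have := mem_range.1 ha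
  rw [hZ a (by omega), hy a (by omega)]

theorem surv_agree (hZ : Agree t Z Z') (hy : AgreeY t y y') (k : ℕ) :
    Agree t (surv Z y k) (surv Z' y' k) := fun a ha => by
  unfold surv
  rw [hZ a ha]
  exact filter_congr fun j _ => by rw [cnt_congr hZ hy j ha]

theorem cut_agree (hZ : Agree t Z Z') (hW : Agree t W W') (b : ℕ) :
    Agree t (cut Z W b) (cut Z' W' b) := fun a ha => by
  unfold cut
  rw [hZ a ha, hW a ha]

theorem lvl_agree (hX : Agree t X X') (hy : AgreeY t y y') (k : ℕ) :
    Agree t (lvl X y K θ k) (lvl X' y' K θ k) := by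
  induction k with
  | zero => exact hX
  | succ k ih => exact cut_agree ih (surv_agree ih hy _) _

theorem lev_agree (hX : Agree t X X') (hy : AgreeY t y y') (k : ℕ) :
    Agree t (lev X y K θ k) (lev X' y' K θ k) := surv_agree (lvl_agree hX hy k) hy _

theorem anch_agree (hX : Agree t X X') (hy : AgreeY t y y') (k a : ℕ) :
    Agree t (anch X y K θ k a) (anch X' y' K θ k a) := fun τ hτ => by
  unfold anch
  split_ifs with h
  · rw [cut_agree (lev_agree hX hy k) (lev_agree hX hy k) _ τ hτ, hX a (by omega)]
  · rfl

theorem popI_agree (hX : Agree t X X') (hy : AgreeY t y y') (k a i s : ℕ) :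
    Agree t (popI X y K θ θ' k a i s) (popI X' y' K θ θ' k a i s) := fun τ hτ => by
  unfold popI
  rw [lev_agree (anch_agree hX hy k a) hy i τ hτ, lev_agree hX hy k τ hτ]

theorem nbr_agree (hX : Agree t X X') (hy : AgreeY t y y') (k a i s h : ℕ) :
    Agree t (nbr X y K θ θ' k a i s h) (nbr X' y' K θ θ' k a i s h) := fun τ hτ => by
  unfold nbr
  rw [hX τ hτ]
  exact filter_congr fun j _ => by rw [cnt_congr (popI_agree hX hy k a i s) hy j hτ]

theorem trans_agree (hX : Agree t X X') (hy : AgreeY t y y') (q : ℕ × ℕ × ℕ × ℕ × ℕ × ℕ) :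
    Agree t (trans n X y q) (trans n X' y' q) := fun τ hτ => by
  unfold trans
  rw [hX τ hτ, anch_agree hX hy _ _ τ hτ, nbr_agree hX hy _ _ _ _ _ τ hτ]

theorem base_congr (hX : Agree t X X') (hy : AgreeY t y y') (p : ℕ × ℕ × ℕ × ℕ × ℕ) {τ : ℕ}
    (hτ : τ ≤ t) : base n X y p τ = base n X' y' p τ := by
  unfold base has hi lo
  simp only [lev_agree hX hy _ τ hτ, anch_agree hX hy _ _ τ hτ]

theorem feat_congr (hX : Agree t X X') (hy : AgreeY t y y') (f : Idx) {τ : ℕ} (hτ : τ ≤ t) :
    feat n X y f τ = feat n X' y' f τ := base_congr (trans_agree hX hy _) hy _ hτ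

def sgn (b : Bool) : ℤ := if b = true then 1 else -1

def ind (b : Bool) : ℤ := if b = true then 1 else 0

/-- The score of the kernel perceptron at time `τ`. -/
def score (n : ℕ) (X : Inst) (y : ℕ → Bool) (τ : ℕ) : ℤ :=
  ∑ σ ∈ range τ, sgn (y σ) * ∑ f ∈ idx n, ind (feat n X y f σ) * ind (feat n X y f τ)

theorem score_congr (hX : Agree t X X') (hy : AgreeY t y y') {τ : ℕ} (hτ : τ ≤ t) :
    score n X y τ = score n X' y' τ := by
  refine sum_congr rfl fun σ hσ => ?_
  have := mem_range.1 hσ
  rw [hy σ (by omega)]
  refine congrArg _ (sum_congr rfl fun f _ => ?_)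
  rw [feat_congr hX hy f hτ, feat_congr hX hy f (by omega : σ ≤ t)]

def corr (y : ℕ → Bool) (T : ℕ) (f : ℕ → Bool) : ℤ := ∑ σ ∈ range T, sgn (y σ) * ind (f σ)

theorem corr_eq (y : ℕ → Bool) (T : ℕ) (f : ℕ → Bool) :
    corr y T f = (pos y T f : ℤ) - neg y T f := by
  unfold corr pos neg
  rw [card_filter, card_filter]
  push_cast
  rw [← sum_sub_distrib]
  refine sum_congr rfl fun σ _ => ?_
  cases y σ <;> cases f σ <;> simp [sgn, ind]

theorem imb_sq (y : ℕ → Bool) (T : ℕ) (f : ℕ → Bool) : (imb y T f : ℤ) ^ 2 = corr y T f ^ 2 := by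
  rw [corr_eq]
  unfold imb Nat.dist
  rcases le_total (pos y T f) (neg y T f) with h | h
  · rw [Nat.sub_eq_zero_of_le h, zero_add, Nat.cast_sub h]; ring
  · rw [Nat.sub_eq_zero_of_le h, add_zero, Nat.cast_sub h]

/-- The perceptron erred at every time before `T`. -/
def AllMist (n : ℕ) (X : Inst) (y : ℕ → Bool) (T : ℕ) : Prop :=
  ∀ τ < T, decide (0 < score n X y τ) ≠ y τ

theorem norm_le {T : ℕ} (h : AllMist n X y T) :
    ∑ f ∈ idx n, corr y T (feat n X y f) ^ 2 ≤ T * (idx n).card := by
  induction T with
  | zero => simp [corr]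
  | succ T ih =>
    have ih' := ih fun τ hτ => h τ (by omega)
    have h1 : score n X y T = ∑ f ∈ idx n, corr y T (feat n X y f) * ind (feat n X y f T) := by
      unfold score corr
      simp only [mul_sum, sum_mul]
      rw [sum_comm]
      exact sum_congr rfl fun f _ => sum_congr rfl fun σ _ => by ring
    have h2 : sgn (y T) * score n X y T ≤ 0 := by
      have := h T (Nat.lt_succ_self T)
      cases hy : y T <;> simp [hy, sgn] at this ⊢ <;> omega
    have h3 : ∀ f ∈ idx n, corr y (T + 1) (feat n X y f) ^ 2 ≤ corr y T (feat n X y f) ^ 2 +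
        2 * (sgn (y T) * (corr y T (feat n X y f) * ind (feat n X y f T))) + 1 := by
      intro f _
      unfold corr
      rw [sum_range_succ]
      cases y T <;> cases feat n X y f T <;> simp [sgn, ind] <;> nlinarith
    refine (sum_le_sum h3).trans ?_
    rw [sum_add_distrib, sum_add_distrib, ← mul_sum, ← mul_sum, ← h1]
    simp only [sum_const, nsmul_eq_mul, mul_one]
    push_cast
    linarith

theorem errAll_sq_le {T : ℕ} (h : AllMist n X y T) :
    errAll n X y T ^ 2 ≤ (idx n).card * (T * (idx n).card) := by
  have h1 := norm_le h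
  have h2 := sq_sum_le_card_mul_sum_sq (s := idx n) (f := fun f => (imb y T (feat n X y f) : ℤ))
  simp only [imb_sq] at h2
  have h3 : ((errAll n X y T : ℕ) : ℤ) ^ 2 ≤ (idx n).card * (T * (idx n).card) := by
    unfold errAll
    push_cast
    exact h2.trans (mul_le_mul_of_nonneg_left h1 (by positivity))
  exact_mod_cast h3

abbrev Hist := List (List Bool × Bool)

def toSet (x : List Bool) : Finset ℕ := (range x.length).filter (fun i => x.getD i false = true)

def hX (H : Hist) : Inst := fun a => toSet (H.getD a ([], false)).1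

def hy (H : Hist) : ℕ → Bool := fun a => (H.getD a ([], false)).2

def predT (H : Hist) (x : List Bool) : Bool :=
  decide (0 < score x.length (hX (H ++ [(x, false)])) (hy (H ++ [(x, false)])) H.length)

def updT (H : Hist) (x : List Bool) (b : Bool) : Hist :=
  if predT H x = b then H else if pT x.length ≤ H.length + 1 then [] else H ++ [(x, b)]

def Good (n : ℕ) (H : Hist) : Prop :=
  (∀ e ∈ H, e.1.length = n) ∧ AllMist n (hX H) (hy H) H.length

theorem getD_append_lt (H : Hist) (e : List Bool × Bool) {a : ℕ} (h : a < H.length) :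
    (H ++ [e]).getD a ([], false) = H.getD a ([], false) := List.getD_append _ _ _ _ h

theorem getD_append_self (H : Hist) (e : List Bool × Bool) :
    (H ++ [e]).getD H.length ([], false) = e := by simp

theorem Good.append {H : Hist} {x : List Bool} {b : Bool} (h : Good n H) (hx : x.length = n)
    (hb : predT H x ≠ b) : Good n (H ++ [(x, b)]) := by
  refine ⟨fun e he => ?_, fun τ hτ => ?_⟩
  · rcases List.mem_append.1 he with h1 | h1
    · exact h.1 e h1
    · rw [List.mem_singleton.1 h1]; exact hx
  · rw [List.length_append, List.length_singleton] at hτ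
    rcases Nat.lt_succ_iff_lt_or_eq.1 hτ with h1 | rfl
    · rw [score_congr (t := τ) (X' := hX H) (y' := hy H)
        (fun a ha => by unfold hX; rw [getD_append_lt _ _ (by omega)])
        (fun a ha => by unfold hy; rw [getD_append_lt _ _ (by omega)]) le_rfl]
      have := h.2 τ h1
      unfold hy at this ⊢
      rwa [getD_append_lt _ _ h1]
    · rw [score_congr (t := H.length) (X' := hX (H ++ [(x, false)])) (y' := hy (H ++ [(x, false)]))
        (fun a ha => by
          unfold hX
          rcases ha.lt_or_eq with h2 | rfl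
          · rw [getD_append_lt _ _ h2, getD_append_lt _ _ h2]
          · rw [getD_append_self, getD_append_self])
        (fun a ha => by unfold hy; rw [getD_append_lt _ _ ha, getD_append_lt _ _ ha]) le_rfl]
      unfold predT at hb
      rw [hx] at hb
      have e : hy (H ++ [(x, b)]) H.length = b := by unfold hy; rw [getD_append_self]
      rwa [e]

theorem hX_empty (H : Hist) {τ : ℕ} (h : H.length ≤ τ) : hX H τ = ∅ := by
  unfold hX
  rw [List.getD_eq_default _ _ h]
  rfl

theorem Good.epoch {H : Hist} (h : Good n H) (hn : 0 < n) (hl : H.length = pT n) (S : Finset ℕ) :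
    pm n < (bad (hX H) (hy H) S H.length).card := by
  rw [hl]
  refine Pool.Agent.Lib.MP_ee7726_lc.epoch hn S (fun τ => ?_) (fun τ hτ => hX_empty H (hl ▸ hτ))
    (errAll_sq_le (hl ▸ h.2))
  rcases lt_or_ge τ H.length with h1 | h1
  · have := h.1 _ (List.getElem_mem h1)
    unfold hX toSet
    rw [List.getD_eq_getElem _ _ h1, this]
    exact filter_subset _ _
  · simp [hX_empty H h1]

/-- Whether the disjunction of the coordinates in `S` errs on an example. -/
def isBad (S : Finset ℕ) (e : List Bool × Bool) : Prop := ¬ (e.2 = true ↔ (toSet e.1 ∩ S).Nonempty)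

instance (S : Finset ℕ) (e : List Bool × Bool) : Decidable (isBad S e) := by
  unfold isBad; infer_instance

theorem bad_append (H : Hist) (e : List Bool × Bool) (S : Finset ℕ) :
    (bad (hX (H ++ [e])) (hy (H ++ [e])) S (H ++ [e]).length).card =
      (bad (hX H) (hy H) S H.length).card + if isBad S e then 1 else 0 := by
  unfold bad
  rw [List.length_append, List.length_singleton, card_filter, card_filter, sum_range_succ]
  refine congrArg₂ (· + ·) (sum_congr rfl fun a ha => ?_) ?_
  · unfold hX hy
    rw [getD_append_lt _ _ (mem_range.1 ha)]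
  · unfold hX hy isBad
    rw [getD_append_self]

/-- Mistakes of the algorithm started with history `H`. -/
def mistT : Hist → Hist → ℕ
  | _, [] => 0
  | H, e :: r => (if predT H e.1 = e.2 then 0 else 1) + mistT (updT H e.1 e.2) r

theorem mistT_le (hn : 0 < n) (S : Finset ℕ) (s : Hist) (hs : ∀ e ∈ s, e.1.length = n) (H : Hist)
    (hH : Good n H) (hl : H.length < pT n) :
    mistT H s + H.length ≤
      pR n * ((bad (hX H) (hy H) S H.length).card + s.countP (fun e => isBad S e)) + pT n := by
  induction s generalizing H with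
  | nil => simp only [mistT]; omega
  | cons e r ih =>
    have hr : ∀ e ∈ r, e.1.length = n := fun e' he' => hs e' (List.mem_cons_of_mem _ he')
    have he : e.1.length = n := hs e List.mem_cons_self
    have hc : (e :: r).countP (fun e => isBad S e) =
        r.countP (fun e => isBad S e) + if isBad S e then 1 else 0 := by
      rw [List.countP_cons]; simp
    rw [hc, mistT]
    unfold updT
    split_ifs with h1 h0 h2 h0 h0
    · have := ih hr H hH hl
      simp only [mul_add] at this ⊢
      omega
    · have := ih hr H hH hl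
      simp only [mul_add] at this ⊢
      omega
    all_goals have hg := hH.append he h1
    all_goals have hb := bad_append H e S
    all_goals simp only [h0, if_true, if_false] at hb
    iterate 2
      · have a1 := ih hr [] ⟨by simp, fun τ hτ => by simp at hτ⟩ (by simp; omega)
        have a2 := hg.epoch hn (by rw [he] at h2; simp; omega) S
        have a3 : pT n = pR n * pm n := by unfold pT; rfl
        have a4 := Nat.mul_le_mul_left (pR n) a2.le
        rw [hb] at a4
        simp only [bad, List.length_nil, range_zero, filter_empty, card_empty, zero_add,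
          add_zero] at a1
        simp only [mul_add] at a4 ⊢
        omega
    iterate 2
      · have a1 := ih hr _ hg (by rw [he] at h2; simp; omega)
        rw [hb, List.length_append, List.length_singleton] at a1
        simp only [mul_add] at a1 ⊢
        omega

theorem pT_pos (hn : 0 < n) : 0 < pT n := by
  unfold pT pR
  exact Nat.mul_pos (by omega) (grid hn).hpos

theorem mistT_nil_le (hn : 0 < n) (S : Finset ℕ) (s : Hist) (hs : ∀ e ∈ s, e.1.length = n) :
    mistT [] s ≤ pR n * s.countP (fun e => isBad S e) + pT n := by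
  have := mistT_le hn S s hs [] ⟨by simp, fun τ hτ => by simp at hτ⟩ (pT_pos hn)
  simpa [bad] using this

theorem updT_size {H : Hist} {x : List Bool} (b : Bool) (hx : x.length = n)
    (h : H.length ≤ pT n ∧ ∀ e ∈ H, e.1.length = n) :
    (updT H x b).length ≤ pT n ∧ ∀ e ∈ updT H x b, e.1.length = n := by
  unfold updT
  split_ifs with h1 h2
  · exact h
  · simp
  · refine ⟨by rw [hx] at h2; simp; omega, fun e he => ?_⟩
    rcases List.mem_append.1 he with h1 | h1
    · exact h.2 e h1
    · rw [List.mem_singleton.1 h1]; exact hx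

end Pool.Agent.Lib.MP_ee7726_lc
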