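import Mathlib
import Pool.Agent.Shared.PolyTime.Extra
import Pool.Agent.Lib.MP_ee7726_lc.Perc

namespace Pool.Agent.Lib.MP_ee7726_lc

open N68a2faeb Pool.Agent.Shared.PolyTime N487b59b3

variable {α β γ : Type} [N487b59b3 α] [N487b59b3 β] [N487b59b3 γ]

/-- A family of sequences whose entries are computable in polynomial time. -/
abbrev PT2 (f : α → ℕ → γ) : Prop := IsPolyTime (fun p : α × ℕ => f p.1 p.2)

theorem PT2.reidx {f : α → ℕ → γ} (hf : PT2 f) {g : β → α} (hg : IsPolyTime g) :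
    PT2 (fun b => f (g b)) :=
  IsPolyTime.comp₂ hf (hg.comp (IsPolyTime.id'.fst)) (IsPolyTime.id'.snd)

theorem PT2.app {f : α → ℕ → γ} (hf : PT2 f) {t : α → ℕ} (ht : IsPolyTime t) :
    IsPolyTime (fun i => f i (t i)) := IsPolyTime.comp₂ (f := f) hf IsPolyTime.id' ht

/-- A computable family of sequences of sets that vanish from time `h` on. -/
structure Orc (h : α → ℕ) (X : α → Inst) : Prop where
  hp : IsPolyTime h
  hb : PolyBdd h
  pt : PT2 X
  supp : ∀ i τ, h i ≤ τ → X i τ = ∅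

variable {h k a b s c : α → ℕ} {X Z W : α → Inst} {y : α → ℕ → Bool} {K θ θ' : α → ℕ → ℕ}

theorem Orc.reidx (hX : Orc h X) {g : β → α} (hg : IsPolyTime g) :
    Orc (fun b => h (g b)) (fun b => X (g b)) :=
  ⟨hX.hp.comp hg, hX.hb.comp hg, hX.pt.reidx hg, fun i τ hτ => hX.supp (g i) τ hτ⟩

theorem Orc.of_subset (hX : Orc h X) (hZ : PT2 Z) (hs : ∀ i τ, Z i τ ⊆ X i τ) : Orc h Z :=
  ⟨hX.hp, hX.hb, hZ, fun i τ hτ => Finset.subset_empty.1 (hX.supp i τ hτ ▸ hs i τ)⟩

theorem cnt_pt (hZ : Orc h Z) (hy : PT2 y) {j τ : α → ℕ} (hj : IsPolyTime j) (hτ : IsPolyTime τ) :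
    IsPolyTime (fun i => cnt (Z i) (y i) (j i) (τ i)) := by
  have h1 := hZ.hp
  have h2 := hZ.hb
  have h3 : IsPolyTime (fun p : α × ℕ => Z p.1 p.2) := hZ.pt
  have h4 : IsPolyTime (fun p : α × ℕ => y p.1 p.2) := hy
  refine IsPolyTime.of_eq (f := fun i => ((Finset.range (min (τ i) (h i))).filter
    (fun a => y i a = false ∧ j i ∈ Z i a)).card) ?_ (fun i => ?_)
  · refine IsPolyTime.card (IsPolyTime.finsetFilter ?_ (by fun_prop))
    exact IsPolyTime.decide_and (by fun_prop) (by fun_prop)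
  · unfold cnt
    refine congrArg Finset.card ?_
    ext a
    simp only [Finset.mem_filter, Finset.mem_range, lt_min_iff]
    refine ⟨fun h => ⟨h.1.1, h.2⟩, fun h' => ⟨⟨h'.1, ?_⟩, h'.2⟩⟩
    by_contra hc
    rw [hZ.supp i a (not_lt.1 hc)] at h'
    simp at h'

theorem surv_orc (hZ : Orc h Z) (hy : PT2 y) (hk : IsPolyTime k) :
    Orc h (fun i => surv (Z i) (y i) (k i)) := by
  refine hZ.of_subset ?_ (fun i τ => surv_subset _ _ _ _)
  refine IsPolyTime.finsetFilter (IsPolyTime.decide_lt ?_ (by fun_prop)) hZ.pt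
  exact cnt_pt (hZ.reidx (g := fun q : (α × ℕ) × ℕ => q.1.1) (by fun_prop))
    (hy.reidx (g := fun q : (α × ℕ) × ℕ => q.1.1) (by fun_prop)) (j := fun q => q.2)
    (τ := fun q => q.1.2) (by fun_prop) (by fun_prop)

theorem cut_orc {h' : α → ℕ} (hZ : Orc h Z) (hW : Orc h' W) (hb : IsPolyTime b) :
    Orc h (fun i => cut (Z i) (W i) (b i)) := by
  refine hZ.of_subset ?_ (fun i τ => cut_subset _ _ _ _)
  exact IsPolyTime.ite (IsPolyTime.decide_le hW.pt.card (by fun_prop)) hZ.pt (IsPolyTime.const _)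

def atL (l : List (Finset ℕ)) : Inst := fun τ => l.getD τ ∅

theorem atL_orc {l : α → List (Finset ℕ)} (hl : IsPolyTime l) :
    Orc (fun i => (l i).length) (fun i => atL (l i)) :=
  ⟨by fun_prop, by fun_prop, IsPolyTime.getD (by fun_prop) (by fun_prop) (IsPolyTime.const _),
    fun i τ hτ => List.getD_eq_default _ _ hτ⟩

theorem atL_tab {n : ℕ} {F : Inst} (hF : ∀ τ, n ≤ τ → F τ = ∅) :
    atL ((List.range n).map F) = F := by
  funext τ
  unfold atL
  rcases lt_or_ge τ n with h | h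
  · rw [List.getD_eq_getElem _ _ (by simpa using h)]
    simp
  · rw [List.getD_eq_default _ _ (by simpa using h), hF τ h]

theorem Orc.tab (hX : Orc h X) : IsPolyTime (fun i => (List.range (h i)).map (X i)) :=
  IsPolyTime.map hX.pt (IsPolyTime.range hX.hp hX.hb)

theorem lvl_orc (hX : Orc h X) (hy : PT2 y) (hK : PT2 K) (hθ : PT2 θ) (hk : IsPolyTime k)
    (hk' : PolyBdd k) : Orc h (fun i => lvl (X i) (y i) (K i) (θ i) (k i)) := by
  have hsupp : ∀ i k τ, h i ≤ τ → lvl (X i) (y i) (K i) (θ i) k τ = ∅ := fun i k τ hτ =>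
    Finset.subset_empty.1 (hX.supp i τ hτ ▸ lvl_subset k τ)
  have h1 : IsPolyTime (fun i => (List.range (h i)).map (lvl (X i) (y i) (K i) (θ i) (k i))) := by
    refine IsPolyTime.nat_rec (fun i k => (List.range (h i)).map (lvl (X i) (y i) (K i) (θ i) k))
      (fun i => (List.range (h i)).map (X i))
      (fun i k l => (List.range (h i)).map (cut (atL l) (surv (atL l) (y i) (K i k)) (θ i k)))
      (fun _ => rfl) (fun i k => by rw [atL_tab (hsupp i k)]; rfl) hX.tab ?_ hk hk'
      (fun i => bsize ((List.range (h i)).map (X i))) (PolyBdd.bsize hX.tab) ?_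
    · have a1 := atL_orc (l := fun p : α × ℕ × List (Finset ℕ) => p.2.2) (by fun_prop)
      have a2 := surv_orc a1 (hy.reidx (g := fun p : α × ℕ × List (Finset ℕ) => p.1) (by fun_prop))
        (k := fun p => K p.1 p.2.1) ((hK.reidx (g := fun p : α × ℕ × List (Finset ℕ) => p.1)
          (by fun_prop)).app (t := fun p => p.2.1) (by fun_prop))
      have a3 := cut_orc a1 a2 (b := fun p => θ p.1 p.2.1)
        ((hθ.reidx (g := fun p : α × ℕ × List (Finset ℕ) => p.1)
          (by fun_prop)).app (t := fun p => p.2.1) (by fun_prop))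
      have a4 := hX.reidx (g := fun p : α × ℕ × List (Finset ℕ) => p.1) (by fun_prop)
      exact IsPolyTime.map a3.pt (IsPolyTime.range a4.hp a4.hb)
    · intro i k _
      rw [bsize_list, bsize_list, List.map_map, List.map_map]
      refine List.sum_le_sum fun τ _ => ?_
      simp only [Function.comp]
      rcases (lvl (X i) (y i) (K i) (θ i) k τ).eq_empty_or_nonempty with h | h
      · rw [h]
        have : bsize (∅ : Finset ℕ) = 0 := by
          change bsize ((∅ : Finset ℕ).sort (· ≤ ·)) = 0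
          rw [Finset.sort_empty]; rfl
        omega
      · rw [lvl_eq_of_nonempty h]
  refine hX.of_subset ?_ (fun i τ => lvl_subset _ _)
  exact (atL_orc h1).pt.of_eq (fun p => congrFun (atL_tab (hsupp p.1 _)) _)

theorem lev_orc (hX : Orc h X) (hy : PT2 y) (hK : PT2 K) (hθ : PT2 θ) (hk : IsPolyTime k)
    (hk' : PolyBdd k) : Orc h (fun i => lev (X i) (y i) (K i) (θ i) (k i)) :=
  surv_orc (lvl_orc hX hy hK hθ hk hk') hy (IsPolyTime.comp₂ hK IsPolyTime.id' hk)

theorem anch_orc (hX : Orc h X) (hy : PT2 y) (hK : PT2 K) (hθ : PT2 θ) (hk : IsPolyTime k)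
    (hk' : PolyBdd k) (ha : IsPolyTime a) :
    Orc h (fun i => anch (X i) (y i) (K i) (θ i) (k i) (a i)) := by
  refine hX.of_subset ?_ (fun i τ => anch_subset _ _ _)
  have h1 := lev_orc hX hy hK hθ hk hk'
  have h2 := cut_orc h1 h1 (IsPolyTime.comp₂ hθ IsPolyTime.id' hk)
  exact IsPolyTime.ite (IsPolyTime.decide_lt (by fun_prop) (by fun_prop))
    (IsPolyTime.finsetInter h2.pt (IsPolyTime.comp₂ hX.pt (by fun_prop) (by fun_prop)))
    (IsPolyTime.const _)

theorem nbr_orc {i' : α → ℕ} (hX : Orc h X) (hy : PT2 y) (hK : PT2 K) (hθ : PT2 θ) (hθ' : PT2 θ')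
    (hk : IsPolyTime k) (hk' : PolyBdd k) (ha : IsPolyTime a) (hi : IsPolyTime i')
    (hi' : PolyBdd i') (hs : IsPolyTime s) (hc : IsPolyTime c) :
    Orc h (fun i => nbr (X i) (y i) (K i) (θ i) (θ' i) (k i) (a i) (i' i) (s i) (c i)) := by
  have h1 := lev_orc hX hy hK hθ hk hk'
  have h2 := lev_orc (anch_orc hX hy hK hθ hk hk' ha) hy hK hθ' hi hi'
  have h3 : Orc h (fun i => popI (X i) (y i) (K i) (θ i) (θ' i) (k i) (a i) (i' i) (s i)) :=
    h1.of_subset (IsPolyTime.ite (IsPolyTime.decide_le (by fun_prop) h2.pt.card) h1.pt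
      (IsPolyTime.const _)) (fun i τ => popI_subset _ _ _ _ _)
  refine hX.of_subset ?_ (fun i τ => nbr_subset _ _ _ _ _ _)
  refine IsPolyTime.finsetFilter (IsPolyTime.decide_le (by fun_prop) ?_) hX.pt
  exact cnt_pt (h3.reidx (g := fun q : (α × ℕ) × ℕ => q.1.1) (by fun_prop))
    (hy.reidx (g := fun q : (α × ℕ) × ℕ => q.1.1) (by fun_prop)) (j := fun q => q.2)
    (τ := fun q => q.1.2) (by fun_prop) (by fun_prop)

variable {n : α → ℕ}

theorem two_pow_pL_le (n : ℕ) : 2 ^ pL n ≤ 2 ^ 21 * (n + 1) := by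
  unfold pL
  have : 2 ^ n.size ≤ 2 * (n + 1) := by
    rcases Nat.eq_zero_or_pos n with rfl | h
    · simp
    · have h1 : 0 < n.size := Nat.size_pos.2 h
      have h2 : 2 ^ (n.size - 1) ≤ n := Nat.lt_size.1 (by omega)
      obtain ⟨t, ht⟩ : ∃ t, n.size = t + 1 := ⟨n.size - 1, by omega⟩
      rw [ht] at h2 ⊢
      simp only [Nat.add_sub_cancel] at h2
      rw [pow_succ]
      omega
  rw [pow_add]
  omega

theorem pT_le_poly (n : ℕ) : pT n ≤ (2 ^ 21 * (n + 1)) ^ 73 := by
  refine (pT_le n).trans ?_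
  unfold pk
  rw [← pow_add]
  exact Nat.pow_le_pow_left (two_pow_pL_le n) _

theorem pL_pt (hn : IsPolyTime n) : IsPolyTime (fun i => pL (n i)) := by
  unfold pL; fun_prop

theorem pL_bdd (hn : IsPolyTime n) : PolyBdd (fun i => pL (n i)) := by
  unfold pL; fun_prop

theorem pk_pt (hn : IsPolyTime n) : IsPolyTime (fun i => pk (n i)) := by
  have := pL_pt hn
  have := pL_bdd hn
  unfold pk; fun_prop

theorem pK_pt (hn : IsPolyTime n) : PT2 (fun i => pK (n i)) := by
  have h1 := pL_pt (hn.comp (g := fun p : α × ℕ => p.1) (by fun_prop))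
  have h2 := pL_bdd (hn.comp (g := fun p : α × ℕ => p.1) (by fun_prop))
  have h3 := pk_pt (hn.comp (g := fun p : α × ℕ => p.1) (by fun_prop))
  unfold pK
  exact IsPolyTime.mul (IsPolyTime.pow (IsPolyTime.const 2) (h1.sub (by fun_prop)) (h2.sub _)) h3

theorem pm_pt (hn : IsPolyTime n) : IsPolyTime (fun i => pm (n i)) := by
  have := pk_pt hn
  unfold pm; fun_prop

theorem pr_pt (hn : IsPolyTime n) (hb : PolyBdd n) : IsPolyTime (fun i => pr (n i)) := by
  have := pL_pt hn
  unfold pr pc pw; fun_prop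

theorem pg0_pt (hn : IsPolyTime n) (hb : PolyBdd n) : IsPolyTime (fun i => pg0 (n i)) := by
  have := pr_pt hn hb
  unfold pg0; fun_prop

theorem pg1_pt (hn : IsPolyTime n) (hb : PolyBdd n) : IsPolyTime (fun i => pg1 (n i)) := by
  have := pr_pt hn hb
  have := pg0_pt hn hb
  unfold pg1; fun_prop

theorem pT_pt (hn : IsPolyTime n) (hb : PolyBdd n) : IsPolyTime (fun i => pT (n i)) := by
  have := pr_pt hn hb
  have := pL_pt hn
  have := pm_pt hn
  unfold pT pR; fun_prop

theorem pT_bdd (hb : PolyBdd n) : PolyBdd (fun i => pT (n i)) :=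
  PolyBdd.of_le (g := fun i => (2 ^ 21 * (n i + 1)) ^ 73) (by fun_prop) (fun i => pT_le_poly _)

theorem thr_pt {g : α → ℕ} (hn : IsPolyTime n) (hg : IsPolyTime g) :
    PT2 (fun i => thr (pK (n i)) (pm (n i)) (g i)) := by
  have h1 : IsPolyTime (fun p : α × ℕ => pK (n p.1) p.2) := pK_pt hn
  have h2 := pm_pt (hn.comp (g := fun p : α × ℕ => p.1) (by fun_prop))
  unfold thr
  exact IsPolyTime.div (IsPolyTime.mul (by fun_prop) h1) h2

theorem trans_orc {q : α → ℕ × ℕ × ℕ × ℕ × ℕ × ℕ} (hX : Orc h X) (hy : PT2 y) (hn : IsPolyTime n)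
    (hb : PolyBdd n) (hq : IsPolyTime q) : Orc h (fun i => trans (n i) (X i) (y i) (q i)) := by
  have hL := pL_pt hn
  have hL' := pL_bdd hn
  have h1 := anch_orc (k := fun i => min (q i).2.2.1 (pL (n i))) (a := fun i => (q i).1) hX hy
    (pK_pt hn) (thr_pt hn (pg0_pt hn hb)) (by fun_prop) (by fun_prop) (by fun_prop)
  have h2 := nbr_orc (k := fun i => min (q i).2.2.1 (pL (n i))) (a := fun i => (q i).1)
    (i' := fun i => min (q i).2.2.2.1 (pL (n i))) (s := fun i => 2 ^ min (q i).2.2.2.2.1 (pL (n i)))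
    (c := fun i => 2 ^ min (q i).2.2.2.2.2 (66 * pL (n i))) hX hy
    (pK_pt hn) (thr_pt hn (pg0_pt hn hb)) (thr_pt hn (pg1_pt hn hb)) (by fun_prop) (by fun_prop)
    (by fun_prop) (by fun_prop) (by fun_prop) (by fun_prop) (by fun_prop)
  refine hX.of_subset ?_ (fun i τ => ?_)
  · exact IsPolyTime.ite (by fun_prop) hX.pt (IsPolyTime.ite (by fun_prop) h1.pt h2.pt)
  · unfold trans
    split_ifs
    · exact Finset.Subset.rfl
    · exact anch_subset _ _ _
    · exact nbr_subset _ _ _ _ _ _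

theorem has_pt {j : α → ℕ} (hX : Orc h X) (hj : IsPolyTime j) : PT2 (fun i => has (X i) (j i)) :=
  IsPolyTime.decide_mem_finset (by fun_prop) hX.pt

theorem hi_pt (hX : Orc h X) (hb : IsPolyTime b) : PT2 (fun i => hi (X i) (b i)) :=
  IsPolyTime.decide_lt (by fun_prop) hX.pt.card

theorem lo_pt {j : α → ℕ} (hX : Orc h X) (hb : IsPolyTime b) (hj : IsPolyTime j) :
    PT2 (fun i => lo (X i) (b i) (j i)) :=
  IsPolyTime.decide_and (IsPolyTime.decide_le hX.pt.card (by fun_prop))
    (IsPolyTime.decide_mem_finset (by fun_prop) hX.pt)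

theorem base_pt {p : α → ℕ × ℕ × ℕ × ℕ × ℕ} (hX : Orc h X) (hy : PT2 y) (hn : IsPolyTime n)
    (hp : IsPolyTime p) : PT2 (fun i => base (n i) (X i) (y i) (p i)) := by
  have hL := pL_pt hn
  have hL' := pL_bdd hn
  have hk : IsPolyTime (fun i => min (p i).2.2.2.1 (pL (n i))) := by fun_prop
  have hk' : PolyBdd (fun i => min (p i).2.2.2.1 (pL (n i))) := by fun_prop
  have hj : IsPolyTime (fun i => (p i).2.2.2.2) := by fun_prop
  have t1 := thr_pt (g := fun i => (p i).2.2.1) hn (by fun_prop)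
  have t2 := thr_pt (g := fun i => (p i).2.2.1 ^ 2) hn (by fun_prop)
  have u1 := t1.app hk
  have u2 := t2.app hk
  have l1 := lev_orc hX hy (pK_pt hn) t1 hk hk'
  have l2 := lev_orc hX hy (pK_pt hn) t2 hk hk'
  have l3 := anch_orc (a := fun i => (p i).1) hX hy (pK_pt hn) t2 hk hk' (by fun_prop)
  exact IsPolyTime.ite (by fun_prop)
    (IsPolyTime.ite (by fun_prop) (has_pt l1 hj) (hi_pt l1 u1))
    (IsPolyTime.ite (by fun_prop) (IsPolyTime.ite (by fun_prop) (has_pt l2 hj) (hi_pt l2 u2))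
      (IsPolyTime.ite (by fun_prop) (IsPolyTime.ite (by fun_prop) (lo_pt l3 u1 hj) (hi_pt l3 u1))
        (IsPolyTime.const _)))

theorem feat_pt {f : α → Idx} (hX : Orc h X) (hy : PT2 y) (hn : IsPolyTime n) (hb : PolyBdd n)
    (hf : IsPolyTime f) : PT2 (fun i => feat (n i) (X i) (y i) (f i)) :=
  base_pt (trans_orc hX hy hn hb hf.fst) hy hn hf.snd

def idxL (n : ℕ) : List Idx :=
  ((List.range (pT n)).product ((List.range 3).product ((List.range (pL n)).product
    ((List.range (pL n)).product ((List.range (pL n)).product (List.range (66 * pL n))))))).product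
  ((List.range (pT n)).product ((List.range 4).product ((List.range (n + 3)).product
    ((List.range (pL n + 1)).product (List.range (n + 1))))))

theorem val_product {A B : Type} {s : Finset A} {t : Finset B} {l : List A} {r : List B}
    (hs : s.val = l) (ht : t.val = r) : (s ×ˢ t).val = (l.product r : List (A × B)) := by
  rw [Finset.product_val, hs, ht, Multiset.coe_product]
  rfl

theorem sum_idx (n : ℕ) (F : Idx → ℤ) : ∑ f ∈ idx n, F f = ((idxL n).map F).sum := by
  have hr : ∀ t, (Finset.range t).val = (List.range t : List ℕ) := fun _ => rfl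
  have : (idx n).val = (idxL n : List Idx) :=
    val_product (val_product (hr _) (val_product (hr _) (val_product (hr _) (val_product (hr _)
      (val_product (hr _) (hr _)))))) (val_product (hr _) (val_product (hr _) (val_product (hr _)
      (val_product (hr _) (hr _)))))
  rw [Finset.sum_eq_multiset_sum, this, Multiset.map_coe, Multiset.sum_coe]

theorem idxL_pt (hn : IsPolyTime n) (hb : PolyBdd n) : IsPolyTime (fun i => idxL (n i)) := by
  have := pL_pt hn
  have := pL_bdd hn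
  have := pT_pt hn hb
  have := pT_bdd hb
  unfold idxL
  fun_prop

theorem score_pt {τ : α → ℕ} (hX : Orc h X) (hy : PT2 y) (hn : IsPolyTime n) (hb : PolyBdd n)
    (hτ : IsPolyTime τ) (hτ' : PolyBdd τ) :
    IsPolyTime (fun i => score (n i) (X i) (y i) (τ i)) := by
  unfold score
  simp only [sum_idx]
  refine IsPolyTime.finsetSum_int ?_ (IsPolyTime.finsetRange hτ hτ')
  have h1 : IsPolyTime (fun p : α × ℕ => y p.1 p.2) := hy
  have hg : IsPolyTime (fun q : (α × ℕ) × Idx => q.1.1) := by fun_prop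
  have h2 := feat_pt (f := fun q : (α × ℕ) × Idx => q.2) (hX.reidx hg) (hy.reidx hg) (hn.comp hg)
    (hb.comp hg) (by fun_prop)
  have h3 := h2.app (t := fun q : (α × ℕ) × Idx => q.1.2) (by fun_prop)
  have h4 := h2.app (hτ.comp hg)
  have hind : IsPolyTime ind := by unfold ind; fun_prop
  have hsgn : IsPolyTime sgn := by unfold sgn; fun_prop
  have h5 : IsPolyTime (fun q : (α × ℕ) × Idx =>
      ind (feat (n q.1.1) (X q.1.1) (y q.1.1) q.2 q.1.2) *
        ind (feat (n q.1.1) (X q.1.1) (y q.1.1) q.2 (τ q.1.1))) :=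
    IsPolyTime.mul_int (hind.comp h3) (hind.comp h4)
  exact IsPolyTime.mul_int (hsgn.comp h1) (IsPolyTime.int_sum (IsPolyTime.map h5
    (idxL_pt (hn.comp (by fun_prop)) (hb.comp (by fun_prop)))))

theorem toSet_pt : IsPolyTime toSet := by unfold toSet; fun_prop

theorem predT_pt : IsPolyTime (fun p : Hist × List Bool => predT p.1 p.2) := by
  have hH : IsPolyTime (fun p : Hist × List Bool => p.1 ++ [(p.2, false)]) := by fun_prop
  have h1 : Orc (fun p : Hist × List Bool => (p.1 ++ [(p.2, false)]).length)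
      (fun p => hX (p.1 ++ [(p.2, false)])) :=
    ⟨by fun_prop, by fun_prop, toSet_pt.comp (by fun_prop), fun i τ hτ => hX_empty _ hτ⟩
  have h2 : PT2 (fun p : Hist × List Bool => hy (p.1 ++ [(p.2, false)])) := by
    unfold hy PT2; fun_prop
  exact IsPolyTime.decide_lt (IsPolyTime.const _)
    (score_pt h1 h2 (by fun_prop) (by fun_prop) (by fun_prop) (by fun_prop))

theorem updT_pt : IsPolyTime (fun p : Hist × List Bool × Bool => updT p.1 p.2.1 p.2.2) := by
  have h1 : IsPolyTime (fun p : Hist × List Bool × Bool => predT p.1 p.2.1) :=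
    IsPolyTime.comp₂ predT_pt (by fun_prop) (by fun_prop)
  have h2 : IsPolyTime (fun p : Hist × List Bool × Bool => pT p.2.1.length) :=
    pT_pt (by fun_prop) (by fun_prop)
  unfold updT
  fun_prop

end Pool.Agent.Lib.MP_ee7726_lc
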