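import Mathlib
import Pool.Agent.Lib.MP_ee7726_lc.Model
import Pool.Agent.Lib.MP_ee7726_lc.Poly

namespace Pool.Agent.Lib.MP_ee7726_lc

open N68a2faeb Pool.Agent.Shared.PolyTime N487b59b3

def dec (s : List Bool) : Hist := (bitDecode s : Option Hist).getD []

theorem dec_enc (H : Hist) : dec (bitEncode H) = H := by simp [dec]

def alg : OnlineAlg where
  init := bitEncode ([] : Hist)
  pred p := predT (dec p.1) p.2
  upd p := bitEncode (updT (dec p.1) p.2.1 p.2.2)

def conv {n : ℕ} (s : List ((Fin n → Bool) × Bool)) : Hist := s.map (fun e => (List.ofFn e.1, e.2))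

theorem conv_len {n : ℕ} (s : List ((Fin n → Bool) × Bool)) : ∀ e ∈ conv s, e.1.length = n := by
  intro e he
  obtain ⟨e', _, rfl⟩ := List.mem_map.1 he
  simp

def runT (H : Hist) (s : Hist) : Hist := s.foldl (fun m e => updT m e.1 e.2) H

theorem memory_aux {n : ℕ} (s : List ((Fin n → Bool) × Bool)) (H : Hist) :
    s.foldl (fun m e => alg.upd (m, List.ofFn e.1, e.2)) (bitEncode H) =
      bitEncode (runT H (conv s)) := by
  induction s generalizing H with
  | nil => rfl
  | cons e r ih =>
    rw [List.foldl_cons]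
    have : alg.upd (bitEncode H, List.ofFn e.1, e.2) = bitEncode (updT H (List.ofFn e.1) e.2) := by
      simp [alg, dec_enc]
    rw [this, ih]
    rfl

theorem memory_eq {n : ℕ} (s : List ((Fin n → Bool) × Bool)) :
    alg.memory s = bitEncode (runT [] (conv s)) := memory_aux s []

theorem runT_size {n : ℕ} (s : Hist) (hs : ∀ e ∈ s, e.1.length = n) (H : Hist)
    (h : H.length ≤ pT n ∧ ∀ e ∈ H, e.1.length = n) :
    (runT H s).length ≤ pT n ∧ ∀ e ∈ runT H s, e.1.length = n := by
  induction s generalizing H with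
  | nil => exact h
  | cons e r ih =>
    exact ih (fun e' he' => hs e' (List.mem_cons_of_mem _ he')) _
      (updT_size e.2 (hs e List.mem_cons_self) h)

theorem alg_poly : alg.PolyTimePerTrial := by
  have hd : IsPolyTime dec := by unfold dec; fun_prop
  refine ⟨?_, ?_, (2 ^ 21 * (Polynomial.X + 1)) ^ 73 * (12 * Polynomial.X + 5), fun n s => ?_⟩
  · exact predT_pt.comp (g := fun p : List Bool × List Bool => (dec p.1, p.2))
      (IsPolyTime.pair (hd.comp (by fun_prop)) (by fun_prop))
  · exact IsPolyTime.bitEncode (updT_pt.comp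
      (g := fun p : List Bool × List Bool × Bool => (dec p.1, p.2.1, p.2.2))
      (IsPolyTime.pair (hd.comp (by fun_prop)) (by fun_prop)))
  · rw [memory_eq]
    have h1 := runT_size (conv s) (conv_len s) [] ⟨by simp, by simp⟩
    have h2 := bsize_list_le (runT [] (conv s)) (6 * n + 2) (fun e he => by
      rw [bsize_prod, bsize_boolList, bsize_bool, h1.2 e he]; omega)
    have h3 := h1.1.trans (pT_le_poly n)
    simp only [Polynomial.eval_mul, Polynomial.eval_pow, Polynomial.eval_add, Polynomial.eval_X,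
      Polynomial.eval_one, Polynomial.eval_ofNat]
    refine le_trans h2 ?_
    exact Nat.mul_le_mul h3 (by omega)

theorem card_filter_fin (t : ℕ) (p : ℕ → Prop) [DecidablePred p] :
    (Finset.univ.filter (fun j : Fin t => p j)).card = ∑ j ∈ Finset.range t, if p j then 1 else 0 := by
  rw [Finset.card_filter, Fin.sum_univ_eq_sum_range (fun j => if p j then 1 else 0)]

theorem mistT_eq (s H : Hist) : mistT H s = ∑ j ∈ Finset.range s.length,
    if predT (runT H (s.take j)) (s.getD j ([], false)).1 ≠ (s.getD j ([], false)).2 then 1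
    else 0 := by
  induction s generalizing H with
  | nil => rfl
  | cons e r ih =>
    rw [List.length_cons, Finset.sum_range_succ', mistT, ih, add_comm]
    refine congrArg₂ (· + ·) rfl ?_
    by_cases h : predT H e.1 = e.2 <;> simp [runT, h]

theorem getD_conv {n : ℕ} (s : List ((Fin n → Bool) × Bool)) (j : Fin s.length) :
    (conv s).getD j ([], false) = (List.ofFn (s.get j).1, (s.get j).2) := by
  rw [List.getD_eq_getElem _ _ (by simp [conv])]
  simp [conv]

theorem mistakes_eq {n : ℕ} (s : List ((Fin n → Bool) × Bool)) :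
    alg.mistakes s = mistT [] (conv s) := by
  rw [mistT_eq, show (conv s).length = s.length by simp [conv], ← card_filter_fin]
  unfold OnlineAlg.mistakes
  refine congrArg Finset.card (Finset.filter_congr fun j _ => ?_)
  rw [getD_conv, memory_eq]
  have : conv (s.take j) = (conv s).take j := by simp [conv, List.map_take]
  simp only [alg, dec_enc, this]

theorem countP_eq_sum {A : Type} (l : List A) (d : A) (p : A → Prop) [DecidablePred p] :
    l.countP (fun e => p e) = ∑ j ∈ Finset.range l.length, if p (l.getD j d) then 1 else 0 := by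
  induction l with
  | nil => rfl
  | cons e r ih =>
    rw [List.length_cons, Finset.sum_range_succ', List.countP_cons, ih]
    simp

theorem disj_eq {n : ℕ} (S : Finset (Fin n)) (s : List ((Fin n → Bool) × Bool)) :
    disjMistakes S s = (conv s).countP (fun e => isBad (S.map Fin.valEmbedding) e) := by
  rw [countP_eq_sum _ ([], false), show (conv s).length = s.length by simp [conv],
    ← card_filter_fin]
  unfold disjMistakes
  refine congrArg Finset.card (Finset.filter_congr fun j _ => ?_)
  rw [getD_conv]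
  have key : (toSet (List.ofFn (s.get j).1) ∩ S.map Fin.valEmbedding).Nonempty ↔
      ∃ i ∈ S, (s.get j).1 i = true := by
    constructor
    · rintro ⟨i, hi⟩
      rw [Finset.mem_inter, Finset.mem_map] at hi
      obtain ⟨h1, i', h2, rfl⟩ := hi
      refine ⟨i', h2, ?_⟩
      simpa [toSet] using h1
    · rintro ⟨i, h1, h2⟩
      refine ⟨i, Finset.mem_inter.2 ⟨?_, Finset.mem_map.2 ⟨i, h1, rfl⟩⟩⟩
      simpa [toSet] using h2
  unfold isBad
  rw [key]
  cases (s.get j).2 <;> simp

theorem pR_le_real {n : ℕ} (hn : 1 ≤ n) :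
    (pR n : ℝ) ≤ 800000 * 21 ^ 5 * (n : ℝ) ^ (9 / 28 : ℝ) * (Real.log n + 1) ^ 5 := by
  have hn' : (1 : ℝ) ≤ n := by exact_mod_cast hn
  have hlog : 0 ≤ Real.log n := Real.log_nonneg hn'
  have h1 : (pL n : ℝ) ≤ 21 * (Real.log n + 1) := by
    have a1 : 0 < n.size := Nat.size_pos.2 hn
    have a2 : 2 ^ (n.size - 1) ≤ n := Nat.lt_size.1 (by omega)
    have a3 : ((n.size - 1 : ℕ) : ℝ) * Real.log 2 ≤ Real.log n := by
      rw [← Real.log_pow]
      exact Real.log_le_log (by positivity) (by exact_mod_cast a2)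
    have a4 := Real.log_two_gt_d9
    have a5 : (pL n : ℝ) = ((n.size - 1 : ℕ) : ℝ) + 21 := by
      have : pL n = (n.size - 1) + 21 := by unfold pL; omega
      rw [this]; push_cast; rfl
    have a6 : (0 : ℝ) ≤ ((n.size - 1 : ℕ) : ℝ) := Nat.cast_nonneg _
    nlinarith
  have h2 : (pw n : ℝ) ≤ 2 * (n : ℝ) ^ (9 / 28 : ℝ) := by
    have a1 : (1 : ℝ) ≤ (n : ℝ) ^ (9 / 28 : ℝ) := Real.one_le_rpow hn' (by norm_num)
    have a2 : ((pw n - 1 : ℕ) : ℝ) ≤ (n : ℝ) ^ (9 / 28 : ℝ) := by
      refine le_of_pow_le_pow_left₀ (n := 28) (by norm_num) (by positivity) ?_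
      rw [← Real.rpow_natCast ((n : ℝ) ^ (9 / 28 : ℝ)), ← Real.rpow_mul (by positivity)]
      have : (9 / 28 : ℝ) * (28 : ℕ) = (9 : ℕ) := by norm_num
      rw [this, Real.rpow_natCast]
      exact_mod_cast pw_pred n
    have a3 : (pw n : ℝ) = ((pw n - 1 : ℕ) : ℝ) + 1 := by
      have := pw_pos n
      have : pw n = (pw n - 1) + 1 := by omega
      exact_mod_cast this
    linarith
  calc (pR n : ℝ) ≤ 400000 * (pL n : ℝ) ^ 5 * pw n := by exact_mod_cast pR_le n
    _ ≤ 400000 * (21 * (Real.log n + 1)) ^ 5 * (2 * (n : ℝ) ^ (9 / 28 : ℝ)) := by gcongr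
    _ = _ := by ring

theorem main : ∃ A : OnlineAlg, A.PolyTimePerTrial ∧ ∃ (C : ℝ) (q : Polynomial ℕ),
    ∀ (n : ℕ), 1 ≤ n → ∀ (s : List ((Fin n → Bool) × Bool)) (S : Finset (Fin n)),
      (A.mistakes s : ℝ) ≤
        C * (n : ℝ) ^ (9 / 28 : ℝ) * (Real.log n + 1) ^ 5 * disjMistakes S s + (q.eval n : ℕ) := by
  refine ⟨alg, alg_poly, 800000 * 21 ^ 5, (2 ^ 21 * (Polynomial.X + 1)) ^ 73, fun n hn s S => ?_⟩
  have h1 := mistT_nil_le hn (S.map Fin.valEmbedding) (conv s) (conv_len s)
  rw [← mistakes_eq, ← disj_eq] at h1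
  have h2 : pT n ≤ ((2 ^ 21 * (Polynomial.X + 1)) ^ 73 : Polynomial ℕ).eval n := by
    simp only [Polynomial.eval_mul, Polynomial.eval_pow, Polynomial.eval_add, Polynomial.eval_X,
      Polynomial.eval_one, Polynomial.eval_ofNat]
    exact pT_le_poly n
  have h3 : (alg.mistakes s : ℝ) ≤ pR n * disjMistakes S s + pT n := by exact_mod_cast h1
  refine h3.trans (add_le_add ?_ (by exact_mod_cast h2))
  exact mul_le_mul_of_nonneg_right (pR_le_real hn) (Nat.cast_nonneg _)

end Pool.Agent.Lib.MP_ee7726_lc
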